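import Pool.Agent.Helper5.ET.Defs

/-!
# Schedule: borders, eras, nodes, gaps
-/

namespace Pool.Agent.Helper27.T4

open Finset Pool.Agent.Helper5.ET

/-! ## facts about the step length (the only place where its definition is used) -/

theorem wof_mono {y z : ℕ} (h : y ≤ z) : wof y ≤ wof z := by
  unfold wof
  exact Nat.mul_le_mul_left _ (Nat.mul_le_mul (Nat.sqrt_le_sqrt h) (Nat.log_mono_right h))

theorem eight_dvd_wof (y : ℕ) : 8 ∣ wof y := ⟨_, rfl⟩

theorem wof_dvd (y : ℕ) : 8 ∣ wof y := eight_dvd_wof y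

theorem pow_aux (m : ℕ) (hm : 32 ≤ m) : (2 * m + 1) * 2 ^ 25 ≤ 2 ^ m := by
  induction m, hm using Nat.le_induction with
  | base => norm_num
  | succ m hm ih =>
    rw [pow_succ 2 m]
    nlinarith

theorem log_ge {b : ℕ} (hb : 2 ^ 64 ≤ b) : 64 ≤ Nat.log 2 b :=
  Nat.le_log_of_pow_le (by norm_num) hb

theorem ne_zero_of_ge {b : ℕ} (hb : 2 ^ 64 ≤ b) : b ≠ 0 := by
  intro h
  rw [h] at hb
  exact absurd hb (by norm_num)

/-- the square root dominates the logarithm -/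
theorem log_le_sqrt {b : ℕ} (hb : 2 ^ 64 ≤ b) : Nat.log 2 b * 2 ^ 25 ≤ Nat.sqrt b := by
  have hL := log_ge hb
  have h1 : 2 ^ Nat.log 2 b ≤ b := Nat.pow_log_le_self 2 (ne_zero_of_ge hb)
  set L := Nat.log 2 b with hLdef
  have h2 : 2 ^ (L / 2) * 2 ^ (L / 2) ≤ b := by
    rw [← pow_add]
    refine le_trans (Nat.pow_le_pow_right (by norm_num) (by omega)) h1
  have h3 : 2 ^ (L / 2) ≤ Nat.sqrt b := Nat.le_sqrt.mpr h2
  have h4 := pow_aux (L / 2) (by omega)
  have h5 : L ≤ 2 * (L / 2) + 1 := by omega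
  calc L * 2 ^ 25 ≤ (2 * (L / 2) + 1) * 2 ^ 25 := Nat.mul_le_mul_right _ h5
    _ ≤ 2 ^ (L / 2) := h4
    _ ≤ Nat.sqrt b := h3

theorem sqrt_ge {b : ℕ} (hb : 2 ^ 64 ≤ b) : 2 ^ 32 ≤ Nat.sqrt b := by
  rw [Nat.le_sqrt]
  exact le_trans (by norm_num) hb

theorem wof_le {b : ℕ} (hb : 2 ^ 64 ≤ b) : wof b * 2 ^ 22 ≤ b := by
  have h1 := log_le_sqrt hb
  have h2 : Nat.sqrt b * Nat.sqrt b ≤ b := Nat.sqrt_le b
  unfold wof
  calc 8 * (Nat.sqrt b * Nat.log 2 b) * 2 ^ 22 = Nat.sqrt b * (Nat.log 2 b * 2 ^ 25) := by ring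
    _ ≤ Nat.sqrt b * Nat.sqrt b := Nat.mul_le_mul_left _ h1
    _ ≤ b := h2

theorem wof_ge {b : ℕ} (hb : 2 ^ 64 ≤ b) : 2 ^ 41 ≤ wof b := by
  have h1 := sqrt_ge hb
  have h2 := log_ge hb
  unfold wof
  calc 2 ^ 41 = 8 * (2 ^ 32 * 64) := by norm_num
    _ ≤ 8 * (Nat.sqrt b * Nat.log 2 b) := Nat.mul_le_mul_left _ (Nat.mul_le_mul h1 h2)

theorem wof_ge_sqrt {y : ℕ} (hy : 2 ^ 64 ≤ y) : Nat.sqrt y ≤ wof y := by
  have h2 := log_ge hy
  unfold wof
  nlinarith [Nat.zero_le (Nat.sqrt y)]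

theorem log_step {y z : ℕ} (hy : 2 ^ 64 ≤ y) (hyz : y ≤ z) (hz : z < 2 * y) :
    64 * Nat.log 2 z ≤ 65 * Nat.log 2 y := by
  have hL := log_ge hy
  have hz0 : z ≠ 0 := ne_zero_of_ge (le_trans hy hyz)
  have h5 : y < 2 ^ (Nat.log 2 y + 1) := Nat.lt_pow_succ_log_self (by norm_num) y
  have h6 : z < 2 ^ (Nat.log 2 y + 2) := by
    calc z < 2 * y := hz
      _ ≤ 2 * 2 ^ (Nat.log 2 y + 1) := Nat.mul_le_mul_left _ h5.le
      _ = 2 ^ (Nat.log 2 y + 2) := by ring
  have h7 : Nat.log 2 z < Nat.log 2 y + 2 := Nat.log_lt_of_lt_pow hz0 h6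
  omega

theorem wof_double {y z : ℕ} (hy : 2 ^ 64 ≤ y) (hyz : y ≤ z) (hz : 5 * z ≤ 8 * y) :
    wof z ≤ 2 * wof y := by
  have hs := sqrt_ge hy
  have hsq : 1000 * Nat.sqrt z ≤ 1270 * Nat.sqrt y := by
    by_contra hcon
    push Not at hcon
    have h2 : Nat.sqrt z * Nat.sqrt z ≤ z := Nat.sqrt_le z
    have h3 : y < (Nat.sqrt y + 1) * (Nat.sqrt y + 1) := Nat.lt_succ_sqrt y
    nlinarith
  have hlog2 := log_step hy hyz (by omega)
  unfold wof
  have h8 : (1000 * Nat.sqrt z) * (64 * Nat.log 2 z) ≤ (1270 * Nat.sqrt y) * (65 * Nat.log 2 y) :=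
    Nat.mul_le_mul hsq hlog2
  have h9 : 64000 * (Nat.sqrt z * Nat.log 2 z) ≤ 82550 * (Nat.sqrt y * Nat.log 2 y) := by
    nlinarith
  omega

/-- explicit smallness of the steps -/
theorem wof_small {y : ℕ} (hy : 2 ^ 64 ≤ y) : wof y * 2 ^ 10 ≤ y := by
  exact le_trans (Nat.mul_le_mul_left _ (Nat.pow_le_pow_right (by norm_num) (by norm_num)))
    (wof_le hy)

theorem wof_pos {y : ℕ} (hy : 2 ^ 64 ≤ y) : 0 < wof y :=
  lt_of_lt_of_le (by norm_num) (wof_ge hy)

theorem wof_le_eps (ε : ℝ) (hε : 0 < ε) : ∃ y0 : ℕ, ∀ y ≥ y0, (wof y : ℝ) ≤ ε * y := by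
  have hl2 : 0 < Real.log 2 := Real.log_pos (by norm_num)
  have hc : 0 < ε * Real.log 2 / 8 := by positivity
  have h1 := (isLittleO_log_rpow_atTop (show (0 : ℝ) < 1 / 2 by norm_num)).def hc
  have h2 := tendsto_natCast_atTop_atTop (R := ℝ) |>.eventually h1
  obtain ⟨y0, hy0⟩ := Filter.eventually_atTop.mp h2
  refine ⟨max y0 2, fun y hy => ?_⟩
  have hy2 : 2 ≤ y := le_trans (le_max_right _ _) hy
  have hyr : (2 : ℝ) ≤ y := by exact_mod_cast hy2
  have h3 := hy0 y (le_trans (le_max_left _ _) hy)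
  have hlog0 : 0 ≤ Real.log y := Real.log_nonneg (by linarith)
  rw [Real.norm_of_nonneg hlog0, Real.norm_of_nonneg (by positivity), ← Real.sqrt_eq_rpow] at h3
  have h4 : (Nat.log 2 y : ℝ) * Real.log 2 ≤ Real.log y := by
    rw [← Real.log_pow]
    apply Real.log_le_log (by positivity)
    exact_mod_cast Nat.pow_log_le_self 2 (by omega)
  have h5 : (Nat.sqrt y : ℝ) ≤ Real.sqrt y := Real.nat_sqrt_le_real_sqrt
  have h6 : (Nat.log 2 y : ℝ) ≤ ε / 8 * Real.sqrt y := by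
    have h7 : (Nat.log 2 y : ℝ) * Real.log 2 ≤ ε / 8 * Real.sqrt y * Real.log 2 := by
      calc (Nat.log 2 y : ℝ) * Real.log 2 ≤ Real.log y := h4
        _ ≤ ε * Real.log 2 / 8 * Real.sqrt y := h3
        _ = ε / 8 * Real.sqrt y * Real.log 2 := by ring
    exact le_of_mul_le_mul_right h7 hl2
  have h8 : (wof y : ℝ) = 8 * ((Nat.sqrt y : ℝ) * (Nat.log 2 y : ℝ)) := by
    unfold wof
    push_cast
    ring
  rw [h8]
  calc 8 * ((Nat.sqrt y : ℝ) * (Nat.log 2 y : ℝ)) ≤ 8 * (Real.sqrt y * (ε / 8 * Real.sqrt y)) := by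
        apply mul_le_mul_of_nonneg_left _ (by norm_num)
        exact mul_le_mul h5 h6 (by positivity) (by positivity)
    _ = ε * (Real.sqrt y * Real.sqrt y) := by ring
    _ = ε * y := by rw [Real.mul_self_sqrt (by positivity)]

/-! ## borders and eras (only the facts above are used) -/

theorem bb_zero : bb 0 = 2 ^ 64 := rfl

theorem bb_succ (k : ℕ) : bb (k + 1) = bb k + (bb k / (2 * wof (bb k)) + 1) * wof (bb k) := rfl

theorem bb_ge_pow (k : ℕ) : 2 ^ 64 ≤ bb k := by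
  induction k with
  | zero => exact le_rfl
  | succ k ih => rw [bb_succ]; exact le_trans ih (Nat.le_add_right _ _)

theorem wof_bb_pos (k : ℕ) : 0 < wof (bb k) := wof_pos (bb_ge_pow k)

theorem bb_step (k : ℕ) :
    bb k + bb k / 2 ≤ bb (k + 1) ∧ bb (k + 1) ≤ bb k + bb k / 2 + wof (bb k) + 1 := by
  rw [bb_succ]
  have hw := wof_bb_pos k
  set b := bb k
  set w := wof b
  have h1 : b < (b / (2 * w) + 1) * (2 * w) := by
    have := Nat.lt_mul_div_succ b (show 0 < 2 * w by omega)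
    rwa [mul_comm] at this
  have h2 : b / (2 * w) * (2 * w) ≤ b := Nat.div_mul_le_self _ _
  have h3 : (b / (2 * w) + 1) * (2 * w) = 2 * ((b / (2 * w) + 1) * w) := by ring
  have h4 : b / (2 * w) * (2 * w) = 2 * (b / (2 * w) * w) := by ring
  have h5 : (b / (2 * w) + 1) * w = b / (2 * w) * w + w := by ring
  omega

theorem bb_lt_succ (k : ℕ) : bb k < bb (k + 1) := by
  have := (bb_step k).1
  have := bb_ge_pow k
  omega

theorem bb_strictMono : StrictMono bb := strictMono_nat_of_lt_succ bb_lt_succ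

theorem le_bb (k : ℕ) : k ≤ bb k := bb_strictMono.id_le k

theorem era_spec (y : ℕ) (hy : bb 0 ≤ y) : bb (era y) ≤ y ∧ y < bb (era y + 1) := by
  constructor
  · exact Nat.findGreatest_spec (P := fun k => bb k ≤ y) (Nat.zero_le y) hy
  · by_contra h
    push Not at h
    have h1 : era y + 1 ≤ y := le_trans (le_bb _) h
    have h2 : era y + 1 ≤ era y := Nat.le_findGreatest (P := fun k => bb k ≤ y) h1 h
    omega

theorem era_eq (y k : ℕ) (h1 : bb k ≤ y) (h2 : y < bb (k + 1)) : era y = k := by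
  have h0 : bb 0 ≤ y := le_trans (bb_strictMono.monotone (Nat.zero_le k)) h1
  obtain ⟨h3, h4⟩ := era_spec y h0
  have h5 : era y < k + 1 := bb_strictMono.lt_iff_lt.mp (lt_of_le_of_lt h3 h2)
  have h6 : k < era y + 1 := bb_strictMono.lt_iff_lt.mp (lt_of_le_of_lt h1 h4)
  omega

theorem era_bb (k : ℕ) : era (bb k) = k := era_eq _ _ le_rfl (bb_lt_succ k)

theorem era_mono {y z : ℕ} (h : y ≤ z) : era y ≤ era z :=
  Nat.findGreatest_mono (fun _ hk => le_trans hk h) h

theorem tau_succ (c : ℕ) : tau (c + 1) = tau c + gap (tau c) := rfl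

theorem gap_pos (y : ℕ) : 0 < gap y := wof_bb_pos _

theorem tau_strictMono : StrictMono tau :=
  strictMono_nat_of_lt_succ (fun c => by rw [tau_succ]; exact Nat.lt_add_of_pos_right (gap_pos _))

theorem tau_ge (c : ℕ) : bb 0 ≤ tau c := tau_strictMono.monotone (Nat.zero_le c)

theorem tau_ge_pow (c : ℕ) : 2 ^ 64 ≤ tau c := tau_ge c

/-- a node and the next one lie in the closed era -/
theorem tau_next (c : ℕ) (h : ∃ j, tau c = bb (era (tau c)) + j * wof (bb (era (tau c)))) :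
    tau (c + 1) ≤ bb (era (tau c) + 1) := by
  obtain ⟨j, hj⟩ := h
  have h1 := (era_spec (tau c) (tau_ge c)).2
  rw [tau_succ, gap]
  set k := era (tau c)
  have hw := wof_bb_pos k
  rw [bb_succ] at h1 ⊢
  rw [hj] at h1
  have h2 : j < bb k / (2 * wof (bb k)) + 1 := by
    have h3 : j * wof (bb k) < (bb k / (2 * wof (bb k)) + 1) * wof (bb k) := by omega
    exact lt_of_mul_lt_mul_right h3 (Nat.zero_le _)
  have h4 : (j + 1) * wof (bb k) ≤ (bb k / (2 * wof (bb k)) + 1) * wof (bb k) :=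
    Nat.mul_le_mul_right _ h2
  rw [add_mul, one_mul] at h4
  omega

/-- nodes in an era are `bb k + j * wof (bb k)` -/
theorem tau_form (c : ℕ) : ∃ j, tau c = bb (era (tau c)) + j * wof (bb (era (tau c))) := by
  induction c with
  | zero =>
    refine ⟨0, ?_⟩
    show bb 0 = _
    have : era (tau 0) = 0 := era_bb 0
    rw [this]
    simp
  | succ c ih =>
    have h1 := tau_next c ih
    obtain ⟨j, hj⟩ := ih
    rcases lt_or_eq_of_le h1 with h2 | h2
    · have h3 : era (tau (c + 1)) = era (tau c) := by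
        apply era_eq _ _ _ h2
        exact le_trans (era_spec (tau c) (tau_ge c)).1 (tau_strictMono.monotone (Nat.le_succ c))
      refine ⟨j + 1, ?_⟩
      rw [h3, tau_succ, gap, add_mul, one_mul]
      omega
    · refine ⟨0, ?_⟩
      have h3 : era (tau (c + 1)) = era (tau c) + 1 := by rw [h2, era_bb]
      rw [h3, h2]
      simp

theorem tau_succ_le (c : ℕ) : tau (c + 1) ≤ bb (era (tau c) + 1) := tau_next c (tau_form c)

/-- borders are nodes -/
theorem bb_node (k : ℕ) : ∃ c, tau c = bb k := by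
  induction k with
  | zero => exact ⟨0, rfl⟩
  | succ k ih =>
    obtain ⟨c, hc⟩ := ih
    have key : ∀ i, i ≤ bb k / (2 * wof (bb k)) + 1 → tau (c + i) = bb k + i * wof (bb k) := by
      intro i
      induction i with
      | zero => intro _; simpa using hc
      | succ i ih2 =>
        intro hi
        have h1 := ih2 (by omega)
        have h2 : era (tau (c + i)) = k := by
          apply era_eq
          · rw [h1]; exact Nat.le_add_right _ _
          · rw [h1, bb_succ]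
            have : i * wof (bb k) < (bb k / (2 * wof (bb k)) + 1) * wof (bb k) :=
              Nat.mul_lt_mul_of_pos_right (by omega) (wof_bb_pos k)
            omega
        rw [← add_assoc, tau_succ, gap, h2, h1]
        ring
    exact ⟨_, by rw [key _ le_rfl, bb_succ]⟩

/-- all positions of `[tau c, tau (c+1))` are in one era -/
theorem era_between (c y : ℕ) (h1 : tau c ≤ y) (h2 : y < tau (c + 1)) : era y = era (tau c) :=
  era_eq _ _ (le_trans (era_spec (tau c) (tau_ge c)).1 h1) (lt_of_lt_of_le h2 (tau_succ_le c))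

theorem eight_dvd_gap (y : ℕ) : 8 ∣ gap y := eight_dvd_wof _

theorem bb_succ_le (k : ℕ) : 100 * bb (k + 1) ≤ 151 * bb k := by
  have h1 := (bb_step k).2
  have h2 := wof_small (bb_ge_pow k)
  have h3 := bb_ge_pow k
  omega

theorem wof_bb_double (k : ℕ) : wof (bb (k + 1)) ≤ 2 * wof (bb k) := by
  have h1 := bb_succ_le k
  exact wof_double (bb_ge_pow k) (bb_lt_succ k).le (by omega)

theorem gap_mono (c : ℕ) :
    gap (tau c) ≤ gap (tau (c + 1)) ∧ gap (tau (c + 1)) ≤ 2 * gap (tau c) := by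
  unfold gap
  have h1 : era (tau c) ≤ era (tau (c + 1)) := era_mono (tau_strictMono.monotone (Nat.le_succ c))
  have h2 : era (tau (c + 1)) ≤ era (tau c) + 1 := by
    have := era_mono (tau_succ_le c)
    rwa [era_bb] at this
  rcases Nat.lt_or_ge (era (tau c)) (era (tau (c + 1))) with h | h
  · have : era (tau (c + 1)) = era (tau c) + 1 := by omega
    rw [this]
    exact ⟨wof_mono (bb_lt_succ _).le, wof_bb_double _⟩
  · have : era (tau (c + 1)) = era (tau c) := by omega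
    rw [this]
    exact ⟨le_rfl, by omega⟩

theorem gap_tau_mono {c d : ℕ} (h : c ≤ d) : gap (tau c) ≤ gap (tau d) :=
  monotone_nat_of_le_succ (fun c => (gap_mono c).1) h

theorem gap_mono_pos {y z : ℕ} (h : y ≤ z) : gap y ≤ gap z :=
  wof_mono (bb_strictMono.monotone (era_mono h))

theorem gap_small (y : ℕ) (hy : bb 0 ≤ y) : gap y * 2 ^ 10 ≤ y := by
  have h1 := (era_spec y hy).1
  have h2 := wof_small (bb_ge_pow (era y))
  unfold gap
  omega

theorem gap_ge_sqrt (y : ℕ) (hy : bb 0 ≤ y) : Nat.sqrt y ≤ 2 * gap y := by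
  obtain ⟨h1, h2⟩ := era_spec y hy
  have h3 := wof_bb_double (era y)
  have h4 := wof_mono h2.le
  have h5 := wof_ge_sqrt (le_trans (bb_ge_pow 0) hy)
  unfold gap
  omega

theorem gap_le_eps (ε : ℝ) (hε : 0 < ε) : ∃ y0 : ℕ, ∀ y ≥ y0, (gap y : ℝ) ≤ ε * y := by
  obtain ⟨y1, h1⟩ := wof_le_eps ε hε
  refine ⟨max y1 (bb 0), fun y hy => ?_⟩
  have h2 := (era_spec y (le_trans (le_max_right _ _) hy)).1
  have h3 : gap y ≤ wof y := wof_mono h2
  calc (gap y : ℝ) ≤ wof y := by exact_mod_cast h3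
    _ ≤ ε * y := h1 y (le_trans (le_max_left _ _) hy)

/-! ## sharper facts for this step length -/

/-- the steps of neighbouring eras -/
theorem wof_ratio (k : ℕ) : wof (bb k) ≤ wof (bb (k + 1)) ∧ 4 * wof (bb (k + 1)) ≤ 5 * wof (bb k) := by
  refine ⟨wof_mono (bb_lt_succ k).le, ?_⟩
  have h0 := bb_ge_pow k
  have h1 := bb_succ_le k
  have hs := sqrt_ge h0
  have hL := log_ge h0
  set b := bb k
  set b' := bb (k + 1)
  have hsq : 1000 * Nat.sqrt b' ≤ 1230 * Nat.sqrt b := by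
    by_contra hcon
    push Not at hcon
    have h2 : Nat.sqrt b' * Nat.sqrt b' ≤ b' := Nat.sqrt_le b'
    have h3 : b < (Nat.sqrt b + 1) * (Nat.sqrt b + 1) := Nat.lt_succ_sqrt b
    nlinarith
  have hlog2 : 64 * Nat.log 2 b' ≤ 65 * Nat.log 2 b :=
    log_step h0 (bb_lt_succ k).le (by omega)
  unfold wof
  have h8 : (1000 * Nat.sqrt b') * (64 * Nat.log 2 b') ≤ (1230 * Nat.sqrt b) * (65 * Nat.log 2 b) :=
    Nat.mul_le_mul hsq hlog2
  have h9 : 64000 * (Nat.sqrt b' * Nat.log 2 b') ≤ 79950 * (Nat.sqrt b * Nat.log 2 b) := by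
    nlinarith
  omega

theorem gap_ratio (c : ℕ) : gap (tau c) ≤ gap (tau (c + 1)) ∧
    4 * gap (tau (c + 1)) ≤ 5 * gap (tau c) := by
  unfold gap
  have h1 : era (tau c) ≤ era (tau (c + 1)) := era_mono (tau_strictMono.monotone (Nat.le_succ c))
  have h2 : era (tau (c + 1)) ≤ era (tau c) + 1 := by
    have := era_mono (tau_succ_le c)
    rwa [era_bb] at this
  rcases Nat.lt_or_ge (era (tau c)) (era (tau (c + 1))) with h | h
  · have : era (tau (c + 1)) = era (tau c) + 1 := by omega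
    rw [this]
    exact wof_ratio _
  · have : era (tau (c + 1)) = era (tau c) := by omega
    rw [this]
    exact ⟨le_rfl, by omega⟩

/-- size of the gap, for all positions from the first border on -/
theorem gap_size' (y : ℕ) (hy : bb 0 ≤ y) : 4 * (Nat.sqrt y * Nat.log 2 y) ≤ gap y ∧
    gap y ≤ 8 * (Nat.sqrt y * Nat.log 2 y) := by
  obtain ⟨h1, h2⟩ := era_spec y hy
  constructor
  · have h3 := (wof_ratio (era y)).2
    have h4 := wof_mono h2.le
    have h5 : wof y = 8 * (Nat.sqrt y * Nat.log 2 y) := rfl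
    unfold gap
    omega
  · exact wof_mono h1

theorem gap_size : ∃ y0 : ℕ, ∀ y ≥ y0, 4 * (Nat.sqrt y * Nat.log 2 y) ≤ gap y ∧
    gap y ≤ 8 * (Nat.sqrt y * Nat.log 2 y) := ⟨bb 0, gap_size'⟩

theorem gap_le (y : ℕ) (hy : bb 0 ≤ y) : gap y * 2 ^ 22 ≤ y := by
  have h1 := (era_spec y hy).1
  have h2 := wof_le (bb_ge_pow (era y))
  unfold gap
  omega

/-! ## the clocks of a state -/

theorem sl_even (c : ℕ) : sl (2 * c) = tau c := by
  unfold sl
  congr 1
  omega

theorem sl_odd (c : ℕ) : sl (2 * c + 1) = tau c := by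
  unfold sl
  congr 1
  omega

theorem se_even (c : ℕ) : se (2 * c) = tau (c + 1) := by
  unfold se
  congr 1
  omega

theorem se_odd (c : ℕ) : se (2 * c + 1) = tau (c + 2) := by
  unfold se
  congr 1
  omega

theorem sk_even (c : ℕ) : sk (2 * c) = tau (c + 1) + 5 * (gap (tau c) / 8) := by
  have h1 : 2 * c % 2 = 0 := by omega
  have h2 : 2 * c / 2 = c := by omega
  unfold sk
  rw [if_pos h1, h2]

theorem sk_odd (c : ℕ) : sk (2 * c + 1) = tau (c + 2) + gap (tau (c + 1)) / 8 := by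
  have h1 : ¬ (2 * c + 1) % 2 = 0 := by omega
  have h2 : (2 * c + 1) / 2 = c := by omega
  unfold sk
  rw [if_neg h1, h2]

theorem sg_even (c : ℕ) : sg (2 * c) = gap (tau c) := by rw [sg, sl_even]

theorem sg_odd (c : ℕ) : sg (2 * c + 1) = gap (tau c) := by rw [sg, sl_odd]

theorem even_or_odd' (s : ℕ) : (∃ c, s = 2 * c) ∨ ∃ c, s = 2 * c + 1 := by
  rcases Nat.even_or_odd' s with ⟨c, h | h⟩
  · exact Or.inl ⟨c, h⟩
  · exact Or.inr ⟨c, h⟩

theorem sl_add_le_se (s : ℕ) : sl s + sg s ≤ se s := by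
  rcases even_or_odd' s with ⟨c, rfl⟩ | ⟨c, rfl⟩
  · rw [sl_even, se_even, sg_even, tau_succ]
  · rw [sl_odd, se_odd, sg_odd, ← tau_succ]
    exact tau_strictMono.monotone (by omega)

theorem sl_lt_se (s : ℕ) : sl s < se s :=
  lt_of_lt_of_le (Nat.lt_add_of_pos_right (gap_pos _)) (sl_add_le_se s)

theorem se_add_le_sk (s : ℕ) : se s + sg s / 8 ≤ sk s := by
  rcases even_or_odd' s with ⟨c, rfl⟩ | ⟨c, rfl⟩
  · rw [se_even, sk_even, sg_even]
    omega
  · rw [se_odd, sk_odd, sg_odd]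
    have := (gap_mono c).1
    omega

theorem se_lt_sk (s : ℕ) : se s < sk s := by
  have h := se_add_le_sk s
  have h2 : 8 ≤ sg s := Nat.le_of_dvd (gap_pos _) (eight_dvd_gap _)
  omega

theorem sk_add_le_succ (s : ℕ) : sk s + sg s / 2 ≤ sk (s + 1) := by
  rcases even_or_odd' s with ⟨c, rfl⟩ | ⟨c, rfl⟩
  · rw [sk_even, sk_odd, sg_even, tau_succ (c + 1)]
    have := (gap_mono c).1
    omega
  · rw [show 2 * c + 1 + 1 = 2 * (c + 1) by ring, sk_even, sk_odd, sg_odd]
    have := (gap_mono c).1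
    have h2 : tau (c + 2) = tau (c + 1 + 1) := rfl
    obtain ⟨m, hm⟩ := eight_dvd_gap (tau (c + 1))
    omega

theorem sk_strictMono : StrictMono sk := by
  refine strictMono_nat_of_lt_succ (fun s => ?_)
  have h := sk_add_le_succ s
  have h2 : 8 ≤ sg s := Nat.le_of_dvd (gap_pos _) (eight_dvd_gap _)
  omega

theorem sl_mono : Monotone sl := fun _ _ h => tau_strictMono.monotone (Nat.div_le_div_right h)

theorem se_mono : Monotone se := by
  refine monotone_nat_of_le_succ (fun s => ?_)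
  rcases even_or_odd' s with ⟨c, rfl⟩ | ⟨c, rfl⟩
  · rw [se_even, se_odd]
    exact tau_strictMono.monotone (by omega)
  · rw [show 2 * c + 1 + 1 = 2 * (c + 1) by ring, se_even, se_odd]

theorem sg_mono : Monotone sg := fun _ _ h => gap_mono_pos (sl_mono h)

theorem sk_succ_le (s : ℕ) : sk (s + 1) ≤ sl s + 4 * sg s := by
  rcases even_or_odd' s with ⟨c, rfl⟩ | ⟨c, rfl⟩
  · rw [sk_odd, sl_even, sg_even]
    have h1 : tau (c + 2) = tau (c + 1) + gap (tau (c + 1)) := rfl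
    have h2 : tau (c + 1) = tau c + gap (tau c) := rfl
    have := gap_ratio c
    omega
  · rw [show 2 * c + 1 + 1 = 2 * (c + 1) by ring, sk_even, sl_odd, sg_odd]
    have h1 : tau (c + 1 + 1) = tau (c + 1) + gap (tau (c + 1)) := rfl
    have h2 : tau (c + 1) = tau c + gap (tau c) := rfl
    have := gap_ratio c
    omega

theorem sk_succ_le5 (s : ℕ) : sk (s + 1) ≤ sl s + 5 * sg s := by
  rcases even_or_odd' s with ⟨c, rfl⟩ | ⟨c, rfl⟩
  · rw [sk_odd, sl_even, sg_even]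
    have h1 : tau (c + 2) = tau (c + 1) + gap (tau (c + 1)) := rfl
    have h2 : tau (c + 1) = tau c + gap (tau c) := rfl
    have := gap_mono c
    omega
  · rw [show 2 * c + 1 + 1 = 2 * (c + 1) by ring, sk_even, sl_odd, sg_odd]
    have h1 : tau (c + 1 + 1) = tau (c + 1) + gap (tau (c + 1)) := rfl
    have h2 : tau (c + 1) = tau c + gap (tau c) := rfl
    have := gap_mono c
    omega

theorem sg_small (s : ℕ) : sg s * 2 ^ 10 ≤ sl s := gap_small _ (tau_ge _)

theorem sg_ge (s : ℕ) : 2 ^ 41 ≤ sg s := wof_ge (bb_ge_pow _)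

theorem sl_ge (s : ℕ) : 2 ^ 64 ≤ sl s := tau_ge _

theorem sg_le (s : ℕ) : sg s * 2 ^ 22 ≤ sl s := gap_le _ (tau_ge _)

/-- far pairs -/
theorem se_add_le {s s' : ℕ} (h : s' + 2 ≤ s) : se s' + gap (se s') ≤ se s := by
  have h1 : se s' + gap (se s') = tau (s' / 2 + 1 + s' % 2 + 1) := rfl
  rw [h1]
  apply tau_strictMono.monotone
  omega

theorem sl_add_le {s s' : ℕ} (h : s' + 2 ≤ s) : sl s' + sg s' ≤ sl s := by
  have h1 : sl s' + sg s' = tau (s' / 2 + 1) := rfl
  rw [h1]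
  apply tau_strictMono.monotone
  omega

end Pool.Agent.Helper27.T4
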