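import Pool.Agent.Helper27.T4.Sch

/-!
# Phases: orders, isolated families, ranks
-/

namespace Pool.Agent.Helper27.T4

open Finset Pool.Agent.Helper5.ET

/-- the family of the era `j` -/
def fam (j : ℕ) : Fin 3 := ⟨j % 3, Nat.mod_lt _ (by norm_num)⟩

theorem own_eq (y : ℕ) : own y = fam (era y) := rfl

theorem fam_add_three (j : ℕ) : fam (j + 3) = fam j := by
  apply Fin.ext
  simp [fam]

theorem fam_eq_iff (i j : ℕ) : fam i = fam j ↔ i % 3 = j % 3 := by
  simp [fam]

theorem rk_lt (K : ℕ) (f : Fin 3) : rk K f < 3 := Nat.mod_lt _ (by norm_num)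

theorem rk_fam (K j : ℕ) : rk K (fam j) = (K + 3 - j % 3) % 3 := rfl

theorem rk_injective (K : ℕ) : Function.Injective (rk K) := by
  intro f g h
  unfold rk at h
  have hf := f.isLt
  have hg := g.isLt
  apply Fin.ext
  omega

theorem rk_self (K : ℕ) : rk K (fam K) = 0 := by
  rw [rk_fam]
  omega

theorem rk_prev (K : ℕ) : rk (K + 1) (fam K) = 1 := by
  rw [rk_fam]
  omega

theorem rk_prev2 (K : ℕ) : rk (K + 2) (fam K) = 2 := by
  rw [rk_fam]
  omega

theorem rk_next (K : ℕ) : rk K (fam (K + 1)) = 2 := by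
  rw [rk_fam]
  omega

theorem rk_next2 (K : ℕ) : rk K (fam (K + 2)) = 1 := by
  rw [rk_fam]
  omega

theorem eq_fam_of_rk_zero {K : ℕ} {f : Fin 3} (h : rk K f = 0) : f = fam K :=
  rk_injective K (by rw [h, rk_self])

theorem eq_fam_of_rk_one {K : ℕ} {f : Fin 3} (h : rk K f = 1) : f = fam (K + 2) :=
  rk_injective K (by rw [h, rk_next2])

theorem eq_fam_of_rk_two {K : ℕ} {f : Fin 3} (h : rk K f = 2) : f = fam (K + 1) :=
  rk_injective K (by rw [h, rk_next])

theorem fam_cases (K : ℕ) (f : Fin 3) : f = fam K ∨ f = fam (K + 1) ∨ f = fam (K + 2) := by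
  have h := rk_lt K f
  have h3 : rk K f = 0 ∨ rk K f = 1 ∨ rk K f = 2 := by omega
  rcases h3 with h | h | h
  · exact Or.inl (eq_fam_of_rk_zero h)
  · exact Or.inr (Or.inr (eq_fam_of_rk_one h))
  · exact Or.inr (Or.inl (eq_fam_of_rk_two h))

theorem fam_ne_succ (K : ℕ) : fam K ≠ fam (K + 1) := by
  rw [Ne, fam_eq_iff]
  omega

theorem fam_ne_succ2 (K : ℕ) : fam K ≠ fam (K + 2) := by
  rw [Ne, fam_eq_iff]
  omega

theorem univ_fam (K : ℕ) : (Finset.univ : Finset (Fin 3)) = {fam K, fam (K + 1), fam (K + 2)} := by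
  symm
  rw [Finset.eq_univ_iff_forall]
  intro f
  rcases fam_cases K f with h | h | h <;> simp [h]

/-! ## who hashes whom -/

theorem mem_pre (l : ℕ) (f g : Fin 3) : g ∈ pre l f ↔
    ¬ (iso l ∧ rk (ordK l) f = 2) ∧ rk (ordK l) g < rk (ordK l) f := by
  unfold pre
  split_ifs with h
  · simp [h]
  · simp [h]

theorem not_mem_pre_self (l : ℕ) (f : Fin 3) : f ∉ pre l f := by
  rw [mem_pre]
  intro h
  exact lt_irrefl _ h.2

theorem pre_rank_zero {l : ℕ} {f : Fin 3} (h : rk (ordK l) f = 0) : pre l f = ∅ := by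
  rw [Finset.eq_empty_iff_forall_notMem]
  intro g hg
  rw [mem_pre, h] at hg
  omega

theorem pre_iso {l : ℕ} {f : Fin 3} (hi : iso l) (h : rk (ordK l) f = 2) : pre l f = ∅ := by
  rw [Finset.eq_empty_iff_forall_notMem]
  intro g hg
  rw [mem_pre] at hg
  exact hg.1 ⟨hi, h⟩

theorem pre_head (l : ℕ) : pre l (fam (ordK l)) = ∅ := pre_rank_zero (rk_self _)

theorem pre_second (l : ℕ) : pre l (fam (ordK l + 2)) = {fam (ordK l)} := by
  ext g
  rw [mem_pre, rk_next2, Finset.mem_singleton]
  constructor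
  · rintro ⟨-, h⟩
    exact eq_fam_of_rk_zero (by omega)
  · rintro rfl
    rw [rk_self]
    exact ⟨fun h => absurd h.2 (by norm_num), by norm_num⟩

theorem pre_third {l : ℕ} (hi : ¬ iso l) :
    pre l (fam (ordK l + 1)) = {fam (ordK l), fam (ordK l + 2)} := by
  ext g
  rw [mem_pre, rk_next, Finset.mem_insert, Finset.mem_singleton]
  constructor
  · rintro ⟨-, h⟩
    have h3 : rk (ordK l) g = 0 ∨ rk (ordK l) g = 1 := by omega
    rcases h3 with h | h
    · exact Or.inl (eq_fam_of_rk_zero h)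
    · exact Or.inr (eq_fam_of_rk_one h)
  · rintro (rfl | rfl)
    · rw [rk_self]
      exact ⟨fun h => hi h.1, by norm_num⟩
    · rw [rk_next2]
      exact ⟨fun h => hi h.1, by norm_num⟩

theorem pre_third_iso {l : ℕ} (hi : iso l) : pre l (fam (ordK l + 1)) = ∅ :=
  pre_iso hi (rk_next _)

theorem pre_congr {l l' : ℕ} (h : ordK l = ordK l') (hi : iso l ↔ iso l') : pre l = pre l' := by
  funext f
  ext g
  rw [mem_pre, mem_pre, h, hi]

/-! ## the order of a position -/

theorem ordK_cases (l : ℕ) : ordK l = era l ∨ ordK l = era l + 1 := by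
  unfold ordK
  split_ifs
  · exact Or.inl rfl
  · exact Or.inr rfl

theorem ordK_of_iso {l : ℕ} (h : iso l) : ordK l = era l := by
  unfold ordK
  rw [if_pos h.2]

theorem ordK_mono {l l' : ℕ} (h0 : bb 0 ≤ l') (h : l' ≤ l) : ordK l' ≤ ordK l := by
  have h1 := era_mono h
  rcases Nat.lt_or_ge (era l') (era l) with h2 | h2
  · have h3 := ordK_cases l'
    have h4 := ordK_cases l
    omega
  · have he : era l' = era l := by omega
    have hb := (era_spec l' h0).1
    unfold ordK
    rw [he]
    rw [he] at hb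
    split_ifs <;> omega

/-- shape of the era of `l` -/
theorem era_length (k : ℕ) : bb k ≤ 2 * (bb (k + 1) - bb k) + 1 ∧
    1000 * (bb (k + 1) - bb k) ≤ 502 * bb k := by
  have h1 := bb_step k
  have h2 := wof_small (bb_ge_pow k)
  have h3 := bb_ge_pow k
  omega

/-- just after a border -/
theorem after_border {k l : ℕ} (h1 : bb k ≤ l) (h2 : 20 * (l - bb k) ≤ l) :
    era l = k ∧ ordK l = k ∧ ¬ iso l := by
  have h3 := era_length k
  have h4 := bb_ge_pow k
  have h5 := bb_lt_succ k
  have he : era l = k := era_eq _ _ h1 (by omega)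
  refine ⟨he, ?_, ?_⟩
  · unfold ordK
    rw [he, if_pos (by omega)]
  · unfold iso
    rw [he]
    omega

/-- just before a border -/
theorem before_border {k l : ℕ} (h1 : l < bb (k + 1)) (h2 : 20 * (bb (k + 1) - l) ≤ l) :
    era l = k ∧ ordK l = k + 1 ∧ ¬ iso l := by
  have h3 := era_length k
  have h4 := bb_ge_pow k
  have h5 := bb_lt_succ k
  have he : era l = k := era_eq _ _ (by omega) h1
  refine ⟨he, ?_, ?_⟩
  · unfold ordK
    rw [he, if_neg (by omega)]
  · unfold iso
    rw [he]
    omega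

/-- the phases of two positions which are close to each other -/
theorem phase_cases {l l' : ℕ} (h0 : bb 0 ≤ l') (h : l' ≤ l) (hs : 60 * (l - l') ≤ l) :
    (era l' = era l ∧ ordK l' = ordK l ∧ (iso l' ↔ iso l)) ∨
    (era l' = era l ∧ ordK l' = era l ∧ ordK l = era l ∧ ¬ iso l' ∧ iso l) ∨
    (era l' = era l ∧ ordK l' = era l ∧ ordK l = era l + 1 ∧ iso l' ∧ ¬ iso l) ∨
    (era l' + 1 = era l ∧ ordK l' = era l ∧ ordK l = era l ∧ ¬ iso l' ∧ ¬ iso l) := by
  have h1 := era_mono h
  obtain ⟨h2, h3⟩ := era_spec l' h0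
  obtain ⟨h4, h5⟩ := era_spec l (le_trans h0 h)
  rcases Nat.lt_or_ge (era l') (era l) with h6 | h6
  · -- a border in between
    right; right; right
    have h7 : bb (era l' + 1) ≤ bb (era l) := bb_strictMono.monotone h6
    obtain ⟨ha1, ha2, ha3⟩ := after_border h4 (by omega)
    obtain ⟨hb1, hb2, hb3⟩ := before_border h3 (by omega)
    have h8 : era l = era l' + 1 := by
      obtain ⟨hc1, -, -⟩ := after_border (k := era l' + 1) (l := l) (by omega) (by omega)
      exact hc1
    exact ⟨h8.symm, by omega, ha2, hb3, ha3⟩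
  · have he : era l' = era l := by omega
    have hL := era_length (era l)
    have hbb := bb_lt_succ (era l)
    rw [he] at h2 h3
    unfold ordK iso
    rw [he]
    set b := bb (era l)
    set b' := bb (era l + 1)
    have hb0 : 2 ^ 64 ≤ b := bb_ge_pow _
    by_cases hA : 5 * (l - b) < 2 * (b' - b)
    · have hA' : 5 * (l' - b) < 2 * (b' - b) := by omega
      rw [if_pos hA, if_pos hA']
      by_cases hB : b' - b ≤ 3 * (l' - b)
      · left
        refine ⟨rfl, rfl, ?_⟩
        constructor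
        · intro _
          exact ⟨by omega, hA⟩
        · intro _
          exact ⟨hB, hA'⟩
      · by_cases hC : b' - b ≤ 3 * (l - b)
        · right; left
          exact ⟨rfl, rfl, rfl, fun hh => hB hh.1, ⟨hC, hA⟩⟩
        · left
          exact ⟨rfl, rfl, ⟨fun hh => absurd hh.1 hB, fun hh => absurd hh.1 hC⟩⟩
    · rw [if_neg hA]
      by_cases hA' : 5 * (l' - b) < 2 * (b' - b)
      · rw [if_pos hA']
        right; right; left
        exact ⟨rfl, rfl, rfl, ⟨by omega, hA'⟩, fun hh => hA hh.2⟩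
      · rw [if_neg hA']
        left
        exact ⟨rfl, rfl, ⟨fun hh => absurd hh.2 hA', fun hh => absurd hh.2 hA⟩⟩

/-! ## owners of intervals -/

theorem own_of_mem {k y : ℕ} (h1 : bb k ≤ y) (h2 : y < bb (k + 1)) : own y = fam k := by
  rw [own_eq, era_eq y k h1 h2]

/-- positions between two nodes of one era -/
theorem own_between {l l' y : ℕ} (he : era l' = era l) (h1 : l' ≤ y)
    (h2 : y ≤ l) : own y = fam (era l) := by
  have h3 := era_mono h1
  have h4 := era_mono h2
  rw [own_eq]
  congr 1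
  omega

/-- positions between a node and the next one -/
theorem own_node (c y : ℕ) (h1 : tau c ≤ y) (h2 : y < tau (c + 1)) : own y = own (tau c) := by
  rw [own_eq, own_eq, era_between c y h1 h2]

/-! ## number of digits of a family between two nodes -/

theorem cnt_sub (f : Fin 3) {y z : ℕ} (h : y ≤ z) :
    cnt f z = cnt f y + ((Finset.Ico y z).filter (fun t => own t = f)).card := by
  unfold cnt
  rw [← Finset.card_union_of_disjoint]
  · congr 1
    ext t
    simp only [Finset.mem_filter, Finset.mem_range, Finset.mem_union, Finset.mem_Ico]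
    constructor
    · rintro ⟨h1, h2⟩
      rcases Nat.lt_or_ge t y with h3 | h3
      · exact Or.inl ⟨h3, h2⟩
      · exact Or.inr ⟨⟨h3, h1⟩, h2⟩
    · rintro (⟨h1, h2⟩ | ⟨⟨h1, h3⟩, h2⟩)
      · exact ⟨by omega, h2⟩
      · exact ⟨h3, h2⟩
  · rw [Finset.disjoint_left]
    intro t h1 h2
    simp only [Finset.mem_filter, Finset.mem_range, Finset.mem_Ico] at h1 h2
    omega

theorem cnt_eq_of (f : Fin 3) {y z : ℕ} (h : y ≤ z) (h1 : ∀ t, y ≤ t → t < z → own t ≠ f) :
    cnt f z = cnt f y := by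
  rw [cnt_sub f h, Finset.filter_false_of_mem, Finset.card_empty, add_zero]
  intro t ht
  rw [Finset.mem_Ico] at ht
  exact h1 t ht.1 ht.2

theorem cnt_add_of (f : Fin 3) {y z : ℕ} (h : y ≤ z) (h1 : ∀ t, y ≤ t → t < z → own t = f) :
    cnt f z = cnt f y + (z - y) := by
  rw [cnt_sub f h, Finset.filter_true_of_mem, Nat.card_Ico]
  intro t ht
  rw [Finset.mem_Ico] at ht
  exact h1 t ht.1 ht.2

/-- inside one era only the family of the era grows -/
theorem cnt_same_era {l l' : ℕ} (h : l' ≤ l) (he : era l' = era l) (f : Fin 3) :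
    cnt f l = if f = fam (era l) then cnt f l' + (l - l') else cnt f l' := by
  split_ifs with hf
  · exact cnt_add_of f h (fun t h1 h2 => by rw [own_between he h1 h2.le, hf])
  · exact cnt_eq_of f h (fun t h1 h2 => by rw [own_between he h1 h2.le]; exact fun h => hf h.symm)

theorem cnt_node (c : ℕ) (f : Fin 3) : cnt f (tau (c + 1)) =
    if f = own (tau c) then cnt f (tau c) + gap (tau c) else cnt f (tau c) := by
  have h : tau c ≤ tau (c + 1) := tau_strictMono.monotone (Nat.le_succ c)
  have h2 : tau (c + 1) - tau c = gap (tau c) := by rw [tau_succ]; omega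
  split_ifs with hf
  · rw [cnt_add_of f h (fun t h1 h2 => by rw [own_node c t h1 h2, hf]), h2]
  · exact cnt_eq_of f h (fun t h1 h2 => by rw [own_node c t h1 h2]; exact fun h => hf h.symm)

end Pool.Agent.Helper27.T4
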