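import Pool.Agent.Helper27.T4.Arc

/-!
# The probability of a hit if some components of the two codes are fresh

`R`, `R'` are the fresh families of the two sides: the components outside are fixed.
-/

namespace Pool.Agent.Helper27.T4

open Finset

variable {ι : Type*} [Fintype ι] [DecidableEq ι] {p : ι → ℕ}

/-- the fixed levels -/
def fx (a : ι → ℕ) (R : Finset ι) : ι → ℕ := fun i => if i ∈ R then 0 else a i

/-- the number of values of the fresh components -/
def MM (p a : ι → ℕ) (R : Finset ι) : ℕ := ∏ i ∈ R, p i ^ a i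

omit [Fintype ι] in
theorem fx_le (a : ι → ℕ) (R : Finset ι) : fx a R ≤ a := by
  intro i
  unfold fx
  split_ifs <;> simp

omit [Fintype ι] [DecidableEq ι] in
theorem MM_pos (hp : ∀ i, (p i).Prime) (a : ι → ℕ) (R : Finset ι) : 0 < MM p a R :=
  Finset.prod_pos (fun i _ => pow_pos (hp i).pos _)

theorem NN_fx_mul (a : ι → ℕ) (R : Finset ι) : NN p (fx a R) * MM p a R = NN p a := by
  unfold NN MM fx
  rw [← Finset.prod_mul_prod_compl R (fun i => p i ^ a i), mul_comm]
  congr 1
  rw [← Finset.prod_mul_prod_compl R (fun i => p i ^ (if i ∈ R then 0 else a i))]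
  have h1 : ∏ i ∈ R, p i ^ (if i ∈ R then 0 else a i) = 1 :=
    Finset.prod_eq_one (fun i hi => by simp [hi])
  rw [h1, one_mul]
  refine Finset.prod_congr rfl (fun i hi => ?_)
  rw [Finset.mem_compl] at hi
  simp [hi]

/-- counting form: `NN a * #S ≤ NN a' * M_R + NN a`: the pairs of vectors which agree with given
vectors outside `R`, `R'` and whose codes have the sum `m` -/
theorem fresh_count (hp : ∀ i, (p i).Prime) (hinj : Function.Injective p) {a a' : ι → ℕ}
    (R R' : Finset ι) (m : ℕ) (t : ∀ i, ZMod (p i ^ a i)) (t' : ∀ i, ZMod (p i ^ a' i))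
    (S : Finset ((∀ i, ZMod (p i ^ a i)) × (∀ i, ZMod (p i ^ a' i))))
    (hS : ∀ q ∈ S, (∀ i, i ∉ R → q.1 i = t i) ∧ (∀ i, i ∉ R' → q.2 i = t' i) ∧
      cv hp hinj a q.1 + cv hp hinj a' q.2 = m) :
    S.card ≤ NN p a' / NN p (fx a R ⊔ fx a' R') + 1 := by
  have h := pair_count hp hinj (fx_le a R) (fx_le a' R') m
    (fun i => ZMod.castHom (pow_dvd_pow (p i) (fx_le a R i)) (ZMod (p i ^ fx a R i)) (t i))
    (fun i => ZMod.castHom (pow_dvd_pow (p i) (fx_le a' R' i)) (ZMod (p i ^ fx a' R' i)) (t' i))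
    S (by
      intro q hq
      obtain ⟨h1, h2, h3⟩ := hS q hq
      refine ⟨?_, ?_, h3⟩
      · intro i
        by_cases hi : i ∈ R
        · have h0 : fx a R i = 0 := by simp [fx, hi]
          have : Subsingleton (ZMod (p i ^ fx a R i)) := by
            rw [h0, pow_zero]; infer_instance
          exact Subsingleton.elim _ _
        · rw [h1 i hi]
      · intro i
        by_cases hi : i ∈ R'
        · have h0 : fx a' R' i = 0 := by simp [fx, hi]
          have : Subsingleton (ZMod (p i ^ fx a' R' i)) := by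
            rw [h0, pow_zero]; infer_instance
          exact Subsingleton.elim _ _
        · rw [h2 i hi])
  refine h.trans ?_
  have : min (NN p a) (NN p a') / NN p (fx a R ⊔ fx a' R') ≤
      NN p a' / NN p (fx a R ⊔ fx a' R') := Nat.div_le_div_right (min_le_right _ _)
  omega

/-- probability form of the far bound -/
theorem fresh_prob (hp : ∀ i, (p i).Prime) (hinj : Function.Injective p) {a a' : ι → ℕ}
    (R R' : Finset ι) (m : ℕ) (t : ∀ i, ZMod (p i ^ a i)) (t' : ∀ i, ZMod (p i ^ a' i))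
    (S : Finset ((∀ i, ZMod (p i ^ a i)) × (∀ i, ZMod (p i ^ a' i))))
    (hS : ∀ q ∈ S, (∀ i, i ∉ R → q.1 i = t i) ∧ (∀ i, i ∉ R' → q.2 i = t' i) ∧
      cv hp hinj a q.1 + cv hp hinj a' q.2 = m) :
    (S.card : ℝ) / ((MM p a R : ℝ) * MM p a' R') ≤
      ((NN p a' : ℝ) / NN p a + 1 / MM p a R) / MM p a' R' := by
  have h := fresh_count hp hinj R R' m t t' S hS
  have hN : (0 : ℝ) < NN p a := by exact_mod_cast NN_pos hp a
  have hN' : (0 : ℝ) < NN p a' := by exact_mod_cast NN_pos hp a'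
  have hM : (0 : ℝ) < MM p a R := by exact_mod_cast MM_pos hp a R
  have hM' : (0 : ℝ) < MM p a' R' := by exact_mod_cast MM_pos hp a' R'
  have hd : NN p (fx a R) ≤ NN p (fx a R ⊔ fx a' R') :=
    Nat.le_of_dvd (NN_pos hp _) (NN_dvd p le_sup_left)
  have hdpos : (0 : ℝ) < NN p (fx a R) := by exact_mod_cast NN_pos hp _
  have h2 : (S.card : ℝ) ≤ NN p a' / NN p (fx a R) + 1 := by
    calc (S.card : ℝ) ≤ ((NN p a' / NN p (fx a R ⊔ fx a' R') + 1 : ℕ) : ℝ) := by exact_mod_cast h
      _ ≤ (NN p a' : ℝ) / (NN p (fx a R ⊔ fx a' R') : ℝ) + 1 := by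
          push_cast
          have := @Nat.cast_div_le ℝ _ _ _ (NN p a') (NN p (fx a R ⊔ fx a' R'))
          linarith
      _ ≤ NN p a' / NN p (fx a R) + 1 := by
          have : (NN p a' : ℝ) / (NN p (fx a R ⊔ fx a' R') : ℝ) ≤ NN p a' / NN p (fx a R) := by
            apply div_le_div_of_nonneg_left hN'.le hdpos
            exact_mod_cast hd
          linarith
  have h3 : (NN p (fx a R) : ℝ) * MM p a R = NN p a := by exact_mod_cast NN_fx_mul a R
  have h4 : (NN p a' : ℝ) / NN p (fx a R) = MM p a R * (NN p a' / NN p a) := by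
    rw [← h3]
    field_simp
  rw [h4] at h2
  have h5 : (S.card : ℝ) / ((MM p a R : ℝ) * MM p a' R') ≤
      (MM p a R * (NN p a' / NN p a) + 1) / ((MM p a R : ℝ) * MM p a' R') :=
    div_le_div_of_nonneg_right h2 (by positivity)
  refine h5.trans (le_of_eq ?_)
  field_simp

theorem NN_sup {a a' : ι → ℕ} (haa : a' ≤ a) (R R' : Finset ι) :
    NN p (fx a R ⊔ fx a' R') = NN p (fx a R) * MM p a' (R \ R') := by
  unfold NN MM
  rw [← Finset.prod_mul_prod_compl (R \ R') (fun i => p i ^ (fx a R ⊔ fx a' R') i),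
    ← Finset.prod_mul_prod_compl (R \ R') (fun i => p i ^ fx a R i)]
  have h1 : ∏ i ∈ R \ R', p i ^ fx a R i = 1 :=
    Finset.prod_eq_one (fun i hi => by
      rw [Finset.mem_sdiff] at hi
      simp [fx, hi.1])
  have h2 : ∏ i ∈ R \ R', p i ^ (fx a R ⊔ fx a' R') i = ∏ i ∈ R \ R', p i ^ a' i := by
    refine Finset.prod_congr rfl (fun i hi => ?_)
    rw [Finset.mem_sdiff] at hi
    simp [fx, hi.1, hi.2]
  have h3 : ∏ i ∈ (R \ R')ᶜ, p i ^ (fx a R ⊔ fx a' R') i = ∏ i ∈ (R \ R')ᶜ, p i ^ fx a R i := by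
    refine Finset.prod_congr rfl (fun i hi => ?_)
    rw [Finset.mem_compl, Finset.mem_sdiff] at hi
    congr 1
    by_cases hR : i ∈ R
    · have hR' : i ∈ R' := by
        by_contra h
        exact hi ⟨hR, h⟩
      simp [fx, hR, hR']
    · simp only [Pi.sup_apply, fx, hR, if_false]
      split_ifs
      · simp
      · exact max_eq_left (haa i)
  rw [h1, h2, h3]
  ring

/-- the exact form: the components fresh only in `a` are checked at the level `a'` -/
theorem fresh_prob_exact (hp : ∀ i, (p i).Prime) (hinj : Function.Injective p) {a a' : ι → ℕ}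
    (haa : a' ≤ a) (R R' : Finset ι) (m : ℕ)
    (t : ∀ i, ZMod (p i ^ a i)) (t' : ∀ i, ZMod (p i ^ a' i))
    (S : Finset ((∀ i, ZMod (p i ^ a i)) × (∀ i, ZMod (p i ^ a' i))))
    (hS : ∀ q ∈ S, (∀ i, i ∉ R → q.1 i = t i) ∧ (∀ i, i ∉ R' → q.2 i = t' i) ∧
      cv hp hinj a q.1 + cv hp hinj a' q.2 = m) :
    (S.card : ℝ) / ((MM p a R : ℝ) * MM p a' R') ≤
      ((NN p a' : ℝ) / (NN p a * MM p a' (R \ R')) + 1 / MM p a R) / MM p a' R' := by
  have h := fresh_count hp hinj R R' m t t' S hS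
  have hN : (0 : ℝ) < NN p a := by exact_mod_cast NN_pos hp a
  have hN' : (0 : ℝ) < NN p a' := by exact_mod_cast NN_pos hp a'
  have hM : (0 : ℝ) < MM p a R := by exact_mod_cast MM_pos hp a R
  have hM' : (0 : ℝ) < MM p a' R' := by exact_mod_cast MM_pos hp a' R'
  have hM2 : (0 : ℝ) < MM p a' (R \ R') := by exact_mod_cast MM_pos hp a' (R \ R')
  have hdpos : (0 : ℝ) < NN p (fx a R) := by exact_mod_cast NN_pos hp _
  rw [NN_sup haa R R'] at h
  have h2 : (S.card : ℝ) ≤ NN p a' / (NN p (fx a R) * MM p a' (R \ R')) + 1 := by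
    calc (S.card : ℝ) ≤ ((NN p a' / (NN p (fx a R) * MM p a' (R \ R')) + 1 : ℕ) : ℝ) := by
          exact_mod_cast h
      _ ≤ (NN p a' : ℝ) / (NN p (fx a R) * MM p a' (R \ R') : ℝ) + 1 := by
          push_cast
          have := @Nat.cast_div_le ℝ _ _ _ (NN p a') (NN p (fx a R) * MM p a' (R \ R'))
          push_cast at this
          linarith
  have h3 : (NN p (fx a R) : ℝ) * MM p a R = NN p a := by exact_mod_cast NN_fx_mul a R
  have h4 : (NN p a' : ℝ) / (NN p (fx a R) * MM p a' (R \ R')) =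
      MM p a R * (NN p a' / (NN p a * MM p a' (R \ R'))) := by
    rw [← h3]
    field_simp
  rw [h4] at h2
  have h5 : (S.card : ℝ) / ((MM p a R : ℝ) * MM p a' R') ≤
      (MM p a R * (NN p a' / (NN p a * MM p a' (R \ R'))) + 1) /
        ((MM p a R : ℝ) * MM p a' R') :=
    div_le_div_of_nonneg_right h2 (by positivity)
  refine h5.trans (le_of_eq ?_)
  field_simp

end Pool.Agent.Helper27.T4
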