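import Mathlib

/-!
# The code of several families by the Chinese remainder theorem
-/

namespace Pool.Agent.Helper27.T4

open Finset

variable {ι : Type*} [Fintype ι]

/-- the modulus -/
def NN (p a : ι → ℕ) : ℕ := ∏ i, p i ^ a i

theorem NN_pos {p : ι → ℕ} (hp : ∀ i, (p i).Prime) (a : ι → ℕ) : 0 < NN p a :=
  Finset.prod_pos (fun i _ => pow_pos (hp i).pos _)

theorem NN_dvd (p : ι → ℕ) {a b : ι → ℕ} (h : b ≤ a) : NN p b ∣ NN p a :=
  Finset.prod_dvd_prod_of_dvd _ _ (fun i _ => pow_dvd_pow _ (h i))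

theorem pow_dvd_NN (p a : ι → ℕ) (i : ι) : p i ^ a i ∣ NN p a :=
  Finset.dvd_prod_of_mem (fun i => p i ^ a i) (Finset.mem_univ i)

omit [Fintype ι] in
theorem pw {p : ι → ℕ} (hp : ∀ i, (p i).Prime) (hinj : Function.Injective p) (a : ι → ℕ) :
    Pairwise (Function.onFun Nat.Coprime (fun i => p i ^ a i)) := by
  intro i j hij
  exact Nat.Coprime.pow _ _ ((Nat.coprime_primes (hp i) (hp j)).mpr (fun h => hij (hinj h)))

/-- the code -/
noncomputable def cc {p : ι → ℕ} (hp : ∀ i, (p i).Prime) (hinj : Function.Injective p)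
    (a : ι → ℕ) (r : ∀ i, ZMod (p i ^ a i)) : ZMod (NN p a) :=
  (ZMod.prodEquivPi (fun i => p i ^ a i) (pw hp hinj a)).symm r

variable {p : ι → ℕ} (hp : ∀ i, (p i).Prime) (hinj : Function.Injective p)

theorem cc_cast (a : ι → ℕ) (r : ∀ i, ZMod (p i ^ a i)) (i : ι) :
    ZMod.castHom (pow_dvd_NN p a i) (ZMod (p i ^ a i)) (cc hp hinj a r) = r i := by
  have h := ZMod.prodEquivPi_apply (fun i => p i ^ a i) (pw hp hinj a) (cc hp hinj a r) i
  have h2 : (ZMod.prodEquivPi (fun i => p i ^ a i) (pw hp hinj a)) (cc hp hinj a r) = r := by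
    rw [cc, RingEquiv.apply_symm_apply]
  rw [h2] at h
  exact h.symm

theorem ext_cast (hp : ∀ i, (p i).Prime) (hinj : Function.Injective p) (a : ι → ℕ)
    (u v : ZMod (NN p a))
    (h : ∀ i, ZMod.castHom (pow_dvd_NN p a i) (ZMod (p i ^ a i)) u =
      ZMod.castHom (pow_dvd_NN p a i) (ZMod (p i ^ a i)) v) : u = v := by
  apply (ZMod.prodEquivPi (fun i => p i ^ a i) (pw hp hinj a)).injective
  funext i
  rw [ZMod.prodEquivPi_apply, ZMod.prodEquivPi_apply]
  exact h i

theorem eq_cc (a : ι → ℕ) (r : ∀ i, ZMod (p i ^ a i)) (u : ZMod (NN p a))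
    (h : ∀ i, ZMod.castHom (pow_dvd_NN p a i) (ZMod (p i ^ a i)) u = r i) :
    u = cc hp hinj a r := by
  apply ext_cast hp hinj
  intro i
  rw [h i, cc_cast]

theorem natCast_eq_cc_iff (a : ι → ℕ) (r : ∀ i, ZMod (p i ^ a i)) (n : ℕ) :
    (n : ZMod (NN p a)) = cc hp hinj a r ↔ ∀ i, (n : ZMod (p i ^ a i)) = r i := by
  constructor
  · intro h i
    rw [← cc_cast hp hinj a r i, ← h, map_natCast]
  · intro h
    apply eq_cc
    intro i
    rw [map_natCast, h i]

theorem cc_add (a : ι → ℕ) (r s : ∀ i, ZMod (p i ^ a i)) :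
    cc hp hinj a (fun i => r i + s i) = cc hp hinj a r + cc hp hinj a s := by
  symm
  apply eq_cc
  intro i
  rw [map_add, cc_cast, cc_cast]

theorem cc_injective (a : ι → ℕ) (r s : ∀ i, ZMod (p i ^ a i))
    (h : cc hp hinj a r = cc hp hinj a s) (i : ι) : r i = s i := by
  rw [← cc_cast hp hinj a r i, ← cc_cast hp hinj a s i, h]

/-- reduction of the code -/
theorem cc_red {a b : ι → ℕ} (hab : b ≤ a) (r : ∀ i, ZMod (p i ^ a i)) :
    ZMod.castHom (NN_dvd p hab) (ZMod (NN p b)) (cc hp hinj a r) =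
      cc hp hinj b (fun i => ZMod.castHom (pow_dvd_pow (p i) (hab i)) (ZMod (p i ^ b i)) (r i)) := by
  apply eq_cc
  intro i
  have h1 : (ZMod.castHom (pow_dvd_NN p b i) (ZMod (p i ^ b i))).comp
      (ZMod.castHom (NN_dvd p hab) (ZMod (NN p b))) =
      (ZMod.castHom (pow_dvd_pow (p i) (hab i)) (ZMod (p i ^ b i))).comp
      (ZMod.castHom (pow_dvd_NN p a i) (ZMod (p i ^ a i))) := RingHom.ext_zmod _ _
  have h2 := RingHom.congr_fun h1 (cc hp hinj a r)
  simp only [RingHom.comp_apply] at h2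
  rw [h2, cc_cast]

/-- the natural number code -/
noncomputable def cv (a : ι → ℕ) (r : ∀ i, ZMod (p i ^ a i)) : ℕ := (cc hp hinj a r).val

theorem cv_lt (a : ι → ℕ) (r : ∀ i, ZMod (p i ^ a i)) : cv hp hinj a r < NN p a := by
  have : NeZero (NN p a) := ⟨(NN_pos hp a).ne'⟩
  exact ZMod.val_lt _

theorem cv_cast (a : ι → ℕ) (r : ∀ i, ZMod (p i ^ a i)) :
    ((cv hp hinj a r : ℕ) : ZMod (NN p a)) = cc hp hinj a r := by
  have : NeZero (NN p a) := ⟨(NN_pos hp a).ne'⟩
  exact ZMod.natCast_zmod_val _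

theorem cv_cast_comp (a : ι → ℕ) (r : ∀ i, ZMod (p i ^ a i)) (i : ι) :
    ((cv hp hinj a r : ℕ) : ZMod (p i ^ a i)) = r i :=
  (natCast_eq_cc_iff hp hinj a r _).mp (cv_cast hp hinj a r) i

theorem cv_cast_red {a b : ι → ℕ} (hab : b ≤ a) (r : ∀ i, ZMod (p i ^ a i)) :
    ((cv hp hinj a r : ℕ) : ZMod (NN p b)) =
      cc hp hinj b (fun i => ZMod.castHom (pow_dvd_pow (p i) (hab i)) (ZMod (p i ^ b i)) (r i)) := by
  rw [← cc_red hp hinj hab r, ← cv_cast hp hinj a r, map_natCast]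

theorem cv_mod {a b : ι → ℕ} (hab : b ≤ a) (r : ∀ i, ZMod (p i ^ a i)) :
    cv hp hinj a r % NN p b =
      cv hp hinj b (fun i => ZMod.castHom (pow_dvd_pow (p i) (hab i)) (ZMod (p i ^ b i)) (r i)) := by
  have h := cv_cast_red hp hinj hab r
  rw [← cv_cast hp hinj b, ZMod.natCast_eq_natCast_iff, Nat.ModEq,
    Nat.mod_eq_of_lt (cv_lt hp hinj b _)] at h
  exact h

/-- two numbers agree modulo the modulus iff they agree at every prime power -/
theorem natCast_eq_iff (hp : ∀ i, (p i).Prime) (hinj : Function.Injective p) (a : ι → ℕ)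
    (m n : ℕ) : (m : ZMod (NN p a)) = n ↔ ∀ i, (m : ZMod (p i ^ a i)) = n := by
  constructor
  · intro h i
    have h2 := congrArg (ZMod.castHom (pow_dvd_NN p a i) (ZMod (p i ^ a i))) h
    rwa [map_natCast, map_natCast] at h2
  · intro h
    apply ext_cast hp hinj
    intro i
    rw [map_natCast, map_natCast]
    exact h i

open Classical in
/-- the growing family: adding `p_g^(b_g) s` to the component `g` adds a multiple `NN p b * E` of
`NN p b`, with `E` prime to `p_g` if `s` is -/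
theorem exists_single (hp : ∀ i, (p i).Prime) (hinj : Function.Injective p) {a b : ι → ℕ}
    (g : ι) (hg : ∀ i, i ≠ g → b i = a i) (s : ℕ) :
    ∃ E : ℕ, (s.Coprime (p g) → E.Coprime (p g)) ∧ ∀ (r : ∀ i, ZMod (p i ^ a i)) (n : ℕ),
      cc hp hinj a (Function.update r g (r g + ((p g ^ b g * (s * n) : ℕ) : ZMod (p g ^ a g)))) =
        cc hp hinj a r + ((NN p b * (E * n) : ℕ) : ZMod (NN p a)) := by
  have hM : (∏ i ∈ Finset.univ.erase g, p i ^ b i).Coprime (p g ^ (a g + 1)) := by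
    apply Nat.Coprime.pow_right
    apply Nat.Coprime.prod_left
    intro i hi
    apply Nat.Coprime.pow_left
    rw [Nat.coprime_primes (hp i) (hp g)]
    intro h
    exact (Finset.ne_of_mem_erase hi) (hinj h)
  set M := ∏ i ∈ Finset.univ.erase g, p i ^ b i with hMdef
  have hNN : NN p b = p g ^ b g * M := by
    rw [NN, hMdef]
    exact (Finset.mul_prod_erase Finset.univ (fun i => p i ^ b i) (Finset.mem_univ g)).symm
  have hu : IsUnit (M : ZMod (p g ^ (a g + 1))) := by
    rw [ZMod.isUnit_iff_coprime]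
    exact hM
  obtain ⟨m1, hm1⟩ := hu.exists_left_inv
  have hne : NeZero (p g ^ (a g + 1)) := ⟨(pow_pos (hp g).pos _).ne'⟩
  refine ⟨((s : ZMod (p g ^ (a g + 1))) * m1).val, ?_, ?_⟩
  · intro hs
    have h1 : IsUnit ((s : ZMod (p g ^ (a g + 1))) * m1) := by
      refine IsUnit.mul ?_ (IsUnit.of_mul_eq_one_right _ (by rwa [mul_comm] at hm1))
      rw [ZMod.isUnit_iff_coprime]
      exact Nat.Coprime.pow_right _ hs
    rw [← ZMod.natCast_zmod_val ((s : ZMod (p g ^ (a g + 1))) * m1), ZMod.isUnit_iff_coprime] at h1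
    exact Nat.Coprime.coprime_dvd_right (dvd_pow_self _ (Nat.succ_ne_zero _)) h1
  · intro r n
    set E := ((s : ZMod (p g ^ (a g + 1))) * m1).val with hE
    have hEM : ((E * M : ℕ) : ZMod (p g ^ (a g + 1))) = s := by
      rw [Nat.cast_mul, hE, ZMod.natCast_zmod_val, mul_assoc, hm1, mul_one]
    have hEM2 : ((E * M : ℕ) : ZMod (p g ^ a g)) = s := by
      have h := congrArg (ZMod.castHom (pow_dvd_pow (p g) (Nat.le_succ (a g)))
        (ZMod (p g ^ a g))) hEM
      rwa [map_natCast, map_natCast] at h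
    symm
    apply eq_cc
    intro i
    rw [map_add, cc_cast, map_natCast]
    by_cases hi : i = g
    · subst hi
      rw [Function.update_self, hNN]
      congr 1
      have : p i ^ b i * M * (E * n) = p i ^ b i * (n * (E * M)) := by ring
      rw [this, Nat.cast_mul, Nat.cast_mul n, hEM2]
      push_cast
      ring
    · rw [Function.update_of_ne hi]
      have : ((NN p b * (E * n) : ℕ) : ZMod (p i ^ a i)) = 0 := by
        rw [ZMod.natCast_eq_zero_iff]
        have h2 := pow_dvd_NN p b i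
        rw [hg i hi] at h2
        exact Dvd.dvd.mul_right h2 _
      rw [this, add_zero]

end Pool.Agent.Helper27.T4
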