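import Pool.Agent.Helper27.T4.Ind2

namespace Pool.Agent.Helper27.T4

open Finset

theorem add_pow_sq_zero {R : Type*} [CommRing R] (x y : R) (hy : y * y = 0) (n : ℕ) :
    (x + y) ^ (n + 1) = x ^ (n + 1) + (n + 1) * x ^ n * y := by
  induction n with
  | zero => simp
  | succ n ih =>
    rw [pow_succ, ih]
    push_cast
    have : (x ^ (n + 1) + (n + 1) * x ^ n * y) * (x + y) =
        x ^ (n + 1 + 1) + (n + 1 + 1) * x ^ (n + 1) * y + (n + 1) * x ^ n * (y * y) := by ring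
    rw [this, hy, mul_zero, add_zero]

/-- the index is linear on short progressions with difference `p^(b+1)` -/
theorem grow {p : ℕ} (hp : p.Prime) (hp2 : p ≠ 2) (a b m0 : ℕ) (hm0 : m0.Coprime p)
    (h2 : a ≤ 2 * b + 1) : ∃ β : ℕ, β.Coprime p ∧ ∀ i : ℕ,
      Lg p a (m0 + i * p ^ (b + 1)) = Lg p a m0 + ((p ^ b * (β * i) : ℕ) : ZMod (p ^ a)) := by
  have := Fact.mk hp
  have h3 : 3 ≤ p := by
    have := hp.two_le
    omega
  obtain ⟨t, ht, ht'⟩ := Lg_rep hp hp2 a m0 hm0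
  obtain ⟨y, hy⟩ := ZMod.exists_one_add_mul_pow_prime_pow_eq (R := ZMod (p ^ (a + 1))) (u := (p : ZMod (p ^ (a + 1))))
    (v := (p : ZMod (p ^ (a + 1)))) hp dvd_rfl (by
      have : (p : ZMod (p ^ (a + 1))) * p * p = p ^ 3 := by ring
      rw [this]
      exact pow_dvd_pow _ h3) 1 b
  rw [mul_one] at hy
  obtain ⟨w, hw⟩ : ∃ w : ZMod (p ^ (a + 1)), w = 1 + p * y := ⟨_, rfl⟩
  rw [← hw] at hy
  have hnil : IsNilpotent ((p : ZMod (p ^ (a + 1))) * y) := by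
    refine ⟨a + 1, ?_⟩
    rw [mul_pow, ← Nat.cast_pow, ZMod.natCast_self, zero_mul]
  have hwu : IsUnit w := by
    rw [hw]
    exact hnil.isUnit_one_add
  have hmu : IsUnit (m0 : ZMod (p ^ (a + 1))) := by
    rw [ZMod.isUnit_iff_coprime]
    exact Nat.Coprime.pow_right _ hm0
  have hpu : IsUnit ((p - 1 : ℕ) : ZMod (p ^ (a + 1))) := by
    rw [ZMod.isUnit_iff_coprime]
    apply Nat.Coprime.pow_right
    rw [Nat.coprime_self_sub_left hp.one_lt.le]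
    exact Nat.coprime_one_left p
  obtain ⟨m1, hm1⟩ := hmu.exists_left_inv
  obtain ⟨w1, hw1⟩ := hwu.exists_left_inv
  have hm1u : IsUnit m1 := IsUnit.of_mul_eq_one_right _ (by rwa [mul_comm] at hm1)
  have hw1u : IsUnit w1 := IsUnit.of_mul_eq_one_right _ (by rwa [mul_comm] at hw1)
  have hβu : IsUnit (((p - 1 : ℕ) : ZMod (p ^ (a + 1))) * m1 * w1) := (hpu.mul hm1u).mul hw1u
  refine ⟨(((p - 1 : ℕ) : ZMod (p ^ (a + 1))) * m1 * w1).val, ?_, ?_⟩
  · have h5 := hβu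
    rw [← ZMod.natCast_zmod_val (((p - 1 : ℕ) : ZMod (p ^ (a + 1))) * m1 * w1), ZMod.isUnit_iff_coprime] at h5
    exact Nat.Coprime.coprime_dvd_right (dvd_pow_self p (Nat.succ_ne_zero a)) h5
  · intro i
    set β := (((p - 1 : ℕ) : ZMod (p ^ (a + 1))) * m1 * w1).val with hβ
    have hβc : (β : ZMod (p ^ (a + 1))) = ((p - 1 : ℕ) : ZMod (p ^ (a + 1))) * m1 * w1 := by rw [hβ, ZMod.natCast_zmod_val]
    have hcop : (m0 + i * p ^ (b + 1)).Coprime p := by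
      rw [pow_succ, ← mul_assoc]
      exact (Nat.coprime_add_mul_right_left m0 p (i * p ^ b)).mpr hm0
    have e0 : (1 + (p : ZMod (p ^ (a + 1)))) ^ (t + p ^ b * (β * i)) =
        (m0 : ZMod (p ^ (a + 1))) ^ (p - 1) *
          (1 + (p : ZMod (p ^ (a + 1))) ^ b * p * w) ^ (β * i) := by
      rw [← hy, ht', ← pow_mul, ← pow_add]
    rw [ht, ← Nat.cast_add, Lg_spec hp hp2 a _ hcop, e0]
    have hP : ((p : ZMod (p ^ (a + 1))) ^ b * p) * ((p : ZMod (p ^ (a + 1))) ^ b * p) = 0 := by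
      have : ((p : ZMod (p ^ (a + 1))) ^ b * p) * ((p : ZMod (p ^ (a + 1))) ^ b * p) = (p : ZMod (p ^ (a + 1))) ^ (a + 1) * p ^ (2 * b + 1 - a) := by
        rw [← pow_add, ← pow_succ, ← pow_add]
        congr 1
        omega
      rw [this, ← Nat.cast_pow, ZMod.natCast_self, zero_mul]
    obtain ⟨q, hq⟩ : ∃ q, p - 1 = q + 1 := ⟨p - 2, by omega⟩
    have hPi : ((i : ZMod (p ^ (a + 1))) * ((p : ZMod (p ^ (a + 1))) ^ b * p)) * ((i : ZMod (p ^ (a + 1))) * ((p : ZMod (p ^ (a + 1))) ^ b * p)) = 0 := by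
      have : ((i : ZMod (p ^ (a + 1))) * ((p : ZMod (p ^ (a + 1))) ^ b * p)) * ((i : ZMod (p ^ (a + 1))) * ((p : ZMod (p ^ (a + 1))) ^ b * p)) =
        (i : ZMod (p ^ (a + 1))) * i * (((p : ZMod (p ^ (a + 1))) ^ b * p) * ((p : ZMod (p ^ (a + 1))) ^ b * p)) := by ring
      rw [this, hP, mul_zero]
    have hPw : (((p : ZMod (p ^ (a + 1))) ^ b * p) * w) * (((p : ZMod (p ^ (a + 1))) ^ b * p) * w) = 0 := by
      have : (((p : ZMod (p ^ (a + 1))) ^ b * p) * w) * (((p : ZMod (p ^ (a + 1))) ^ b * p) * w) =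
        w * w * (((p : ZMod (p ^ (a + 1))) ^ b * p) * ((p : ZMod (p ^ (a + 1))) ^ b * p)) := by ring
      rw [this, hP, mul_zero]
    have e1 : ((m0 + i * p ^ (b + 1) : ℕ) : ZMod (p ^ (a + 1))) = (m0 : ZMod (p ^ (a + 1))) + (i : ZMod (p ^ (a + 1))) * ((p : ZMod (p ^ (a + 1))) ^ b * p) := by
      push_cast
      ring
    have e2 : ∀ n : ℕ, (1 + ((p : ZMod (p ^ (a + 1))) ^ b * p) * w) ^ n = 1 + n * (((p : ZMod (p ^ (a + 1))) ^ b * p) * w) := by
      intro n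
      rcases n with _ | n
      · simp
      · rw [add_pow_sq_zero 1 _ hPw n]
        push_cast
        ring
    rw [e1, e2, hq, add_pow_sq_zero _ _ hPi q]
    push_cast
    rw [hβc, hq]
    have e3 : (m0 : ZMod (p ^ (a + 1))) ^ (q + 1) * (1 + (((q + 1 : ℕ) : ZMod (p ^ (a + 1))) * m1 * w1 * (i : ZMod (p ^ (a + 1)))) *
        ((p : ZMod (p ^ (a + 1))) ^ b * p * w)) = (m0 : ZMod (p ^ (a + 1))) ^ (q + 1) + ((q : ZMod (p ^ (a + 1))) + 1) * (m0 : ZMod (p ^ (a + 1))) ^ q * (m1 * m0) * (w1 * w) *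
        ((i : ZMod (p ^ (a + 1))) * ((p : ZMod (p ^ (a + 1))) ^ b * p)) := by
      push_cast
      ring
    rw [e3, hm1, hw1]
    ring

end Pool.Agent.Helper27.T4
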