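import Pool.Agent.Helper27.T4.Crt

/-!
# Codes in an interval

If some components of the code are free and the others are fixed (modulo `p_i ^ d_i`), then the
code takes at most `Y / NN p d + 1` values in an interval of length `Y`.
-/

namespace Pool.Agent.Helper27.T4

open Finset

/-- numbers of one class in an interval -/
theorem card_class_le (Q A Y : ℕ) (T : Finset ℕ)
    (hT : ∀ c ∈ T, A ≤ c ∧ c < A + Y) (hc : ∀ c ∈ T, ∀ c' ∈ T, c ≡ c' [MOD Q]) :
    T.card ≤ Y / Q + 1 := by
  rcases Nat.eq_zero_or_pos Q with rfl | hQ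
  · -- all elements are equal
    have h1 : T.card ≤ 1 := by
      rw [Finset.card_le_one]
      intro c h c' h'
      have := hc c h c' h'
      rwa [Nat.modEq_zero_iff] at this
    omega
  · have h2 : T.card ≤ (Finset.range (Y / Q + 1)).card := by
      refine Finset.card_le_card_of_injOn (fun c => (c - A) / Q) ?_ ?_
      · intro c h
        have h3 := hT c h
        simp only [Finset.coe_range, Set.mem_Iio]
        have : (c - A) / Q ≤ Y / Q := Nat.div_le_div_right (by omega)
        omega
      · intro c h c' h' hh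
        have h3 := hT c h
        have h4 := hT c' h'
        have h5 := hc c h c' h'
        have h6 : (c - A) ≡ (c' - A) [MOD Q] := by
          have e1 : A + (c - A) = c := by omega
          have e2 : A + (c' - A) = c' := by omega
          rw [← e1, ← e2] at h5
          exact Nat.ModEq.add_left_cancel' A h5
        simp only at hh
        have h7 : c - A = c' - A := by
          rw [← Nat.div_add_mod (c - A) Q, ← Nat.div_add_mod (c' - A) Q, hh]
          rw [h6]
        omega
    simpa using h2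

variable {ι : Type*} [Fintype ι] {p : ι → ℕ} (hp : ∀ i, (p i).Prime)
  (hinj : Function.Injective p)

theorem cv_injective (a : ι → ℕ) (r s : ∀ i, ZMod (p i ^ a i))
    (h : cv hp hinj a r = cv hp hinj a s) : r = s := by
  funext i
  rw [← cv_cast_comp hp hinj a r i, ← cv_cast_comp hp hinj a s i, h]

/-- if two vectors agree modulo `p_i ^ d_i` their codes agree modulo `NN p d` -/
theorem cv_modEq {a d : ι → ℕ} (hd : d ≤ a) (r s : ∀ i, ZMod (p i ^ a i))
    (h : ∀ i, ZMod.castHom (pow_dvd_pow (p i) (hd i)) (ZMod (p i ^ d i)) (r i) =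
      ZMod.castHom (pow_dvd_pow (p i) (hd i)) (ZMod (p i ^ d i)) (s i)) :
    cv hp hinj a r ≡ cv hp hinj a s [MOD NN p d] := by
  rw [Nat.ModEq, cv_mod hp hinj hd, cv_mod hp hinj hd]
  congr 1
  funext i
  exact h i

theorem arc_count {a d : ι → ℕ} (hd : d ≤ a) (A Y : ℕ) (t : ∀ i, ZMod (p i ^ d i))
    (S : Finset (∀ i, ZMod (p i ^ a i)))
    (hS : ∀ r ∈ S, (∀ i, ZMod.castHom (pow_dvd_pow (p i) (hd i)) (ZMod (p i ^ d i)) (r i) = t i) ∧
      A ≤ cv hp hinj a r ∧ cv hp hinj a r < A + Y) : S.card ≤ Y / NN p d + 1 := by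
  classical
  have h1 : S.card = (S.image (cv hp hinj a)).card := by
    rw [Finset.card_image_of_injOn]
    intro r _ s _ h
    exact cv_injective hp hinj a r s h
  rw [h1]
  refine card_class_le (NN p d) A Y _ ?_ ?_
  · intro c hc
    rw [Finset.mem_image] at hc
    obtain ⟨r, hr, rfl⟩ := hc
    exact (hS r hr).2
  · intro c hc c' hc'
    rw [Finset.mem_image] at hc hc'
    obtain ⟨r, hr, rfl⟩ := hc
    obtain ⟨s, hs, rfl⟩ := hc'
    apply cv_modEq hp hinj hd
    intro i
    rw [(hS r hr).1 i, (hS s hs).1 i]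

/-- the pairs of codes with a given sum -/
theorem pair_count {a a' d d' : ι → ℕ} (hd : d ≤ a) (hd' : d' ≤ a') (m : ℕ)
    (t : ∀ i, ZMod (p i ^ d i)) (t' : ∀ i, ZMod (p i ^ d' i))
    (S : Finset ((∀ i, ZMod (p i ^ a i)) × (∀ i, ZMod (p i ^ a' i))))
    (hS : ∀ q ∈ S,
      (∀ i, ZMod.castHom (pow_dvd_pow (p i) (hd i)) (ZMod (p i ^ d i)) (q.1 i) = t i) ∧
      (∀ i, ZMod.castHom (pow_dvd_pow (p i) (hd' i)) (ZMod (p i ^ d' i)) (q.2 i) = t' i) ∧
      cv hp hinj a q.1 + cv hp hinj a' q.2 = m) :
    S.card ≤ min (NN p a) (NN p a') / NN p (d ⊔ d') + 1 := by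
  classical
  have h1 : S.card = (S.image (fun q => cv hp hinj a q.1)).card := by
    rw [Finset.card_image_of_injOn]
    intro q hq q' hq' h
    simp only at h
    have e1 := (hS q hq).2.2
    have e2 := (hS q' hq').2.2
    have e3 : cv hp hinj a' q.2 = cv hp hinj a' q'.2 := by omega
    exact Prod.ext (cv_injective hp hinj a _ _ h) (cv_injective hp hinj a' _ _ e3)
  -- congruences
  have h2 : ∀ q ∈ S, ∀ q' ∈ S,
      cv hp hinj a q.1 ≡ cv hp hinj a q'.1 [MOD NN p (d ⊔ d')] := by
    intro q hq q' hq'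
    have c1 : cv hp hinj a q.1 ≡ cv hp hinj a q'.1 [MOD NN p d] := by
      apply cv_modEq hp hinj hd
      intro i
      rw [(hS q hq).1 i, (hS q' hq').1 i]
    have c2 : cv hp hinj a' q.2 ≡ cv hp hinj a' q'.2 [MOD NN p d'] := by
      apply cv_modEq hp hinj hd'
      intro i
      rw [(hS q hq).2.1 i, (hS q' hq').2.1 i]
    have c3 : cv hp hinj a q.1 ≡ cv hp hinj a q'.1 [MOD NN p d'] := by
      have e1 := (hS q hq).2.2
      have e2 := (hS q' hq').2.2
      have e3 : cv hp hinj a q.1 + cv hp hinj a' q.2 ≡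
          cv hp hinj a q'.1 + cv hp hinj a' q.2 [MOD NN p d'] := by
        rw [e1, ← e2]
        exact Nat.ModEq.add_left _ c2.symm
      exact Nat.ModEq.add_right_cancel' _ e3
    rw [← ZMod.natCast_eq_natCast_iff, natCast_eq_iff hp hinj]
    intro i
    rcases le_total (d i) (d' i) with h | h
    · have : (d ⊔ d') i = d' i := by simp [h]
      rw [this]
      rw [← ZMod.natCast_eq_natCast_iff, natCast_eq_iff hp hinj] at c3
      exact c3 i
    · have : (d ⊔ d') i = d i := by simp [h]
      rw [this]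
      rw [← ZMod.natCast_eq_natCast_iff, natCast_eq_iff hp hinj] at c1
      exact c1 i
  rw [h1]
  rcases le_total (NN p a) (NN p a') with h | h
  · rw [min_eq_left h]
    refine card_class_le _ 0 _ _ ?_ ?_
    · intro c hc
      rw [Finset.mem_image] at hc
      obtain ⟨q, _, rfl⟩ := hc
      have := cv_lt hp hinj a q.1
      omega
    · intro c hc c' hc'
      rw [Finset.mem_image] at hc hc'
      obtain ⟨q, hq, rfl⟩ := hc
      obtain ⟨q', hq', rfl⟩ := hc'
      exact h2 q hq q' hq'
  · rw [min_eq_right h]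
    refine card_class_le _ (m + 1 - NN p a') _ _ ?_ ?_
    · intro c hc
      rw [Finset.mem_image] at hc
      obtain ⟨q, hq, rfl⟩ := hc
      have e1 := (hS q hq).2.2
      have e2 := cv_lt hp hinj a' q.2
      omega
    · intro c hc c' hc'
      rw [Finset.mem_image] at hc hc'
      obtain ⟨q, hq, rfl⟩ := hc
      obtain ⟨q', hq', rfl⟩ := hc'
      exact h2 q hq q' hq'

end Pool.Agent.Helper27.T4
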