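import Mathlib

/-!
# The p-adic index (p odd)

`Lg p a x` is the class `t` modulo `p^a` with `x^(p-1) = (1+p)^t` modulo `p^(a+1)`.
-/

namespace Pool.Agent.Helper27.T4

open Finset

/-- the unit `1 + p` modulo `p^(a+1)` -/
theorem isUnit_one_add (p a : ℕ) : IsUnit (1 + p : ZMod (p ^ (a + 1))) := by
  rw [← Nat.cast_one (R := ZMod _), ← Nat.cast_add, ZMod.isUnit_iff_coprime]
  apply Nat.Coprime.pow_right
  simp only [Nat.coprime_add_self_left, Nat.coprime_one_left_eq_true]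

theorem pow_eq_iff {p : ℕ} (hp : p.Prime) (hp2 : p ≠ 2) (a s t : ℕ) :
    ((1 + p : ZMod (p ^ (a + 1))) ^ s = (1 + p) ^ t) ↔ ((s : ZMod (p ^ a)) = t) := by
  have ha := isUnit_one_add p a
  have ho : orderOf ha.unit = p ^ a := by
    rw [← orderOf_injective _ Units.coeHom_injective ha.unit, Units.coeHom_apply, IsUnit.unit_spec]
    exact ZMod.orderOf_one_add_prime hp hp2 a
  have h1 : ((1 + p : ZMod (p ^ (a + 1))) ^ s = (1 + p) ^ t) ↔ ha.unit ^ s = ha.unit ^ t := by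
    rw [Units.ext_iff]
    simp
  rw [h1, pow_eq_pow_iff_modEq, ho, ZMod.natCast_eq_natCast_iff]

theorem exists_pow {p : ℕ} (hp : p.Prime) (hp2 : p ≠ 2) (a x : ℕ) (hx : x.Coprime p) :
    ∃ t : ℕ, ((x : ZMod (p ^ (a + 1))) ^ (p - 1) = (1 + p) ^ t) := by
  have := Fact.mk hp
  have hcyc : IsCyclic (ZMod (p ^ (a + 1)))ˣ := ZMod.isCyclic_units_of_prime_pow p hp hp2 (a + 1)
  have ha := isUnit_one_add p a
  have ho : orderOf ha.unit = p ^ a := by
    rw [← orderOf_injective _ Units.coeHom_injective ha.unit, Units.coeHom_apply, IsUnit.unit_spec]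
    exact ZMod.orderOf_one_add_prime hp hp2 a
  have hxu : IsUnit (x : ZMod (p ^ (a + 1))) := by
    rw [ZMod.isUnit_iff_coprime]
    exact Nat.Coprime.pow_right _ hx
  classical
  have hcard : Fintype.card (ZMod (p ^ (a + 1)))ˣ = p ^ a * (p - 1) := by
    rw [ZMod.card_units_eq_totient, Nat.totient_prime_pow_succ hp]
  have hle := IsCyclic.card_pow_eq_one_le (α := (ZMod (p ^ (a + 1)))ˣ) (n := p ^ a)
    (pow_pos hp.pos a)
  have hsub : (Finset.range (p ^ a)).image (fun i => ha.unit ^ i) ⊆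
      (Finset.univ.filter (fun u : (ZMod (p ^ (a + 1)))ˣ => u ^ (p ^ a) = 1)) := by
    intro u hu
    simp only [Finset.mem_image, Finset.mem_range] at hu
    obtain ⟨i, _, rfl⟩ := hu
    simp only [Finset.mem_filter, Finset.mem_univ, true_and]
    rw [← pow_mul, mul_comm, pow_mul, ← ho, pow_orderOf_eq_one, one_pow]
  have hc2 : ((Finset.range (p ^ a)).image (fun i => ha.unit ^ i)).card = p ^ a := by
    rw [Finset.card_image_of_injOn, Finset.card_range]
    intro i hi j hj hij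
    simp only [Finset.coe_range, Set.mem_Iio] at hi hj
    have := pow_eq_pow_iff_modEq.mp hij
    rw [ho] at this
    exact Nat.ModEq.eq_of_lt_of_lt this hi hj
  have heq := Finset.eq_of_subset_of_card_le hsub (by rw [hc2]; exact hle)
  have hmem : hxu.unit ^ (p - 1) ∈ (Finset.univ.filter
      (fun u : (ZMod (p ^ (a + 1)))ˣ => u ^ (p ^ a) = 1)) := by
    simp only [Finset.mem_filter, Finset.mem_univ, true_and]
    rw [← pow_mul, mul_comm, ← hcard, pow_card_eq_one]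
  rw [← heq] at hmem
  simp only [Finset.mem_image, Finset.mem_range] at hmem
  obtain ⟨t, _, ht⟩ := hmem
  refine ⟨t, ?_⟩
  have h2 := congrArg (fun u : (ZMod (p ^ (a + 1)))ˣ => (u : ZMod (p ^ (a + 1)))) ht
  simp only [Units.val_pow_eq_pow_val, IsUnit.unit_spec] at h2
  exact h2.symm

open Classical in
/-- the index of a residue class -/
noncomputable def LgZ (p a : ℕ) (u : ZMod (p ^ (a + 1))) : ZMod (p ^ a) :=
  if h : ∃ t : ℕ, (u ^ (p - 1) = (1 + p) ^ t) then (Classical.choose h : ℕ)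
  else 0

/-- the index of `x` modulo `p^a` -/
noncomputable def Lg (p a x : ℕ) : ZMod (p ^ a) := LgZ p a (x : ZMod (p ^ (a + 1)))

theorem Lg_spec {p : ℕ} (hp : p.Prime) (hp2 : p ≠ 2) (a x : ℕ) (hx : x.Coprime p) (t : ℕ) :
    Lg p a x = t ↔ (x : ZMod (p ^ (a + 1))) ^ (p - 1) = (1 + p) ^ t := by
  have h := exists_pow hp hp2 a x hx
  have h1 := Classical.choose_spec h
  rw [Lg, LgZ, dif_pos h, ← pow_eq_iff hp hp2, ← h1]

/-- a natural number representing the index -/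
theorem Lg_rep {p : ℕ} (hp : p.Prime) (hp2 : p ≠ 2) (a x : ℕ) (hx : x.Coprime p) :
    ∃ t : ℕ, Lg p a x = t ∧ (x : ZMod (p ^ (a + 1))) ^ (p - 1) = (1 + p) ^ t := by
  obtain ⟨t, ht⟩ := exists_pow hp hp2 a x hx
  exact ⟨t, (Lg_spec hp hp2 a x hx t).mpr ht, ht⟩

theorem Lg_mul {p : ℕ} (hp : p.Prime) (hp2 : p ≠ 2) (a x y : ℕ) (hx : x.Coprime p)
    (hy : y.Coprime p) : Lg p a (x * y) = Lg p a x + Lg p a y := by
  obtain ⟨s, hs, hs'⟩ := Lg_rep hp hp2 a x hx
  obtain ⟨t, ht, ht'⟩ := Lg_rep hp hp2 a y hy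
  rw [hs, ht, ← Nat.cast_add, Lg_spec hp hp2 a _ (Nat.Coprime.mul_left hx hy)]
  push_cast
  rw [mul_pow, hs', ht', ← pow_add]

theorem Lg_congr {p : ℕ} (a x y : ℕ) (h : (x : ZMod (p ^ (a + 1))) = y) :
    Lg p a x = Lg p a y := by
  rw [Lg, Lg, h]

theorem Lg_red {p : ℕ} (hp : p.Prime) (hp2 : p ≠ 2) (a b x : ℕ) (hx : x.Coprime p)
    (hab : b ≤ a) : ZMod.castHom (pow_dvd_pow p hab) (ZMod (p ^ b)) (Lg p a x) = Lg p b x := by
  obtain ⟨s, hs, hs'⟩ := Lg_rep hp hp2 a x hx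
  rw [hs, map_natCast, eq_comm, Lg_spec hp hp2 b x hx]
  have h := congrArg (ZMod.castHom (pow_dvd_pow p (Nat.succ_le_succ hab)) (ZMod (p ^ (b + 1)))) hs'
  rw [map_pow, map_pow, map_add, map_one, map_natCast, map_natCast] at h
  exact h

theorem Lg_eq_iff {p : ℕ} (hp : p.Prime) (hp2 : p ≠ 2) (a x y : ℕ) (hx : x.Coprime p)
    (hy : y.Coprime p) : Lg p a x = Lg p a y ↔
      (x : ZMod (p ^ (a + 1))) ^ (p - 1) = (y : ZMod (p ^ (a + 1))) ^ (p - 1) := by
  obtain ⟨t, ht, ht'⟩ := Lg_rep hp hp2 a y hy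
  rw [ht, Lg_spec hp hp2 a x hx, ht']

end Pool.Agent.Helper27.T4
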