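import Pool.Agent.Helper27.T4.Ind

namespace Pool.Agent.Helper27.T4

open Finset

/-- at most `p - 1` residues modulo `p^(a+1)` have a given index -/
theorem card_units_pow_le {p : ℕ} [Fact p.Prime] (hp : p.Prime) (hp2 : p ≠ 2) (a : ℕ)
    (c : (ZMod (p ^ (a + 1)))ˣ) :
    (Finset.univ.filter (fun u : (ZMod (p ^ (a + 1)))ˣ => u ^ (p - 1) = c)).card ≤ p - 1 := by
  have hcyc : IsCyclic (ZMod (p ^ (a + 1)))ˣ := ZMod.isCyclic_units_of_prime_pow p hp hp2 (a + 1)
  have hle := IsCyclic.card_pow_eq_one_le (α := (ZMod (p ^ (a + 1)))ˣ) (n := p - 1)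
    (Nat.sub_pos_of_lt hp.one_lt)
  rcases (Finset.univ.filter
    (fun u : (ZMod (p ^ (a + 1)))ˣ => u ^ (p - 1) = c)).eq_empty_or_nonempty with h | ⟨u0, h0⟩
  · rw [h]; simp
  · refine le_trans ?_ hle
    simp only [Finset.mem_filter, Finset.mem_univ, true_and] at h0
    refine Finset.card_le_card_of_injOn (fun u => u * u0⁻¹) ?_ ?_
    · intro u hu
      simp only [Finset.coe_filter, Finset.mem_univ, true_and, Set.mem_ofPred_eq] at hu ⊢
      rw [mul_pow, hu, inv_pow, h0, mul_inv_cancel]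
    · intro u _ v _ h
      exact mul_right_cancel h

theorem card_Lg_le {p : ℕ} (hp : p.Prime) (hp2 : p ≠ 2) (a : ℕ) (t : ZMod (p ^ a)) :
    ((Finset.range (p ^ (a + 1))).filter (fun m => m.Coprime p ∧ Lg p a m = t)).card ≤ p - 1 := by
  have := Fact.mk hp
  classical
  rcases ((Finset.range (p ^ (a + 1))).filter
    (fun m => m.Coprime p ∧ Lg p a m = t)).eq_empty_or_nonempty with h | ⟨m0, h0⟩
  · rw [h]; simp
  · simp only [Finset.mem_filter, Finset.mem_range] at h0
    obtain ⟨_, hc0, hL0⟩ := h0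
    have key : ∀ m : ℕ, m.Coprime p → IsUnit (m : ZMod (p ^ (a + 1))) := by
      intro m hm
      rw [ZMod.isUnit_iff_coprime]
      exact Nat.Coprime.pow_right _ hm
    refine le_trans ?_ (le_trans (Finset.card_image_le
      (f := fun u : (ZMod (p ^ (a + 1)))ˣ => (u : ZMod (p ^ (a + 1))).val))
      (card_units_pow_le hp hp2 a ((key m0 hc0).unit ^ (p - 1))))
    · refine Finset.card_le_card ?_
      intro m hm
      simp only [Finset.mem_filter, Finset.mem_range] at hm
      obtain ⟨hlt, hc, hL⟩ := hm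
      rw [Finset.mem_image]
      refine ⟨(key m hc).unit, ?_, ?_⟩
      · simp only [Finset.mem_filter, Finset.mem_univ, true_and]
        have h1 : Lg p a m = Lg p a m0 := by rw [hL, hL0]
        rw [Lg_eq_iff hp hp2 a m m0 hc hc0] at h1
        rw [Units.ext_iff]
        simpa using h1
      · rw [IsUnit.unit_spec, ZMod.val_natCast, Nat.mod_eq_of_lt hlt]

/-- a number has at most two factorizations into two primes -/
theorem card_two_primes_le (S : Finset (ℕ × ℕ)) (m : ℕ)
    (hS : ∀ q ∈ S, q.1.Prime ∧ q.2.Prime ∧ q.1 * q.2 = m) : S.card ≤ 2 := by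
  classical
  rcases S.eq_empty_or_nonempty with h | ⟨q0, h0⟩
  · rw [h]; simp
  · obtain ⟨hp, hq, hm⟩ := hS q0 h0
    have hsub : S ⊆ {q0, (q0.2, q0.1)} := by
      intro q hqS
      obtain ⟨hp', hq', hm'⟩ := hS q hqS
      have hd : q.1 ∣ q0.1 * q0.2 := by rw [hm, ← hm']; exact dvd_mul_right _ _
      rcases (Nat.Prime.dvd_mul hp').mp hd with h | h
      · have h1 : q.1 = q0.1 := (Nat.prime_dvd_prime_iff_eq hp' hp).mp h
        have h2 : q.2 = q0.2 := by
          have : q0.1 * q.2 = q0.1 * q0.2 := by rw [hm, ← hm', h1]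
          exact Nat.eq_of_mul_eq_mul_left hp.pos this
        simp only [Finset.mem_insert, Finset.mem_singleton]
        exact Or.inl (Prod.ext h1 h2)
      · have h1 : q.1 = q0.2 := (Nat.prime_dvd_prime_iff_eq hp' hq).mp h
        have h2 : q.2 = q0.1 := by
          have : q0.2 * q.2 = q0.2 * q0.1 := by rw [mul_comm q0.2 q0.1, hm, ← hm', h1]
          exact Nat.eq_of_mul_eq_mul_left hq.pos this
        simp only [Finset.mem_insert, Finset.mem_singleton]
        exact Or.inr (Prod.ext h1 h2)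
    exact le_trans (Finset.card_le_card hsub) Finset.card_le_two

/-- pairs of primes whose product is small and has a given index -/
theorem decode {p : ℕ} (hp : p.Prime) (hp2 : p ≠ 2) (a : ℕ) (t : ZMod (p ^ a))
    (S : Finset (ℕ × ℕ))
    (hS : ∀ q ∈ S, q.1.Prime ∧ q.2.Prime ∧ (q.1 * q.2).Coprime p ∧ q.1 * q.2 < p ^ (a + 1) ∧
      Lg p a (q.1 * q.2) = t) : S.card ≤ 2 * (p - 1) := by
  classical
  have h1 : S.card ≤ 2 * ((Finset.range (p ^ (a + 1))).filter
      (fun m => m.Coprime p ∧ Lg p a m = t)).card := by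
    refine Finset.card_le_mul_card_image_of_maps_to (f := fun q : ℕ × ℕ => q.1 * q.2) ?_ 2 ?_
    · intro q hq
      obtain ⟨_, _, h3, h4, h5⟩ := hS q hq
      simp only [Finset.mem_filter, Finset.mem_range]
      exact ⟨h4, h3, h5⟩
    · intro m _
      refine card_two_primes_le _ m ?_
      intro q hq
      simp only [Finset.mem_filter] at hq
      exact ⟨(hS q hq.1).1, (hS q hq.1).2.1, hq.2⟩
  exact le_trans h1 (Nat.mul_le_mul_left 2 (card_Lg_le hp hp2 a t))

end Pool.Agent.Helper27.T4
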