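import Pool.Agent.Helper27.T4.Sch

/-!
# The price of a hit of a far pair of states
-/

namespace Pool.Agent.Helper27.T4

open Finset Pool.Agent.Helper5.ET

/-- the gaps as real numbers -/
theorem tau_cast (c : ℕ) : (tau (c + 1) : ℝ) = tau c + gap (tau c) := by
  rw [tau_succ]
  push_cast
  ring

theorem gap_div_eight (y : ℕ) : ((gap y / 8 : ℕ) : ℝ) = gap y / 8 := by
  obtain ⟨m, hm⟩ := eight_dvd_gap y
  rw [hm, Nat.mul_div_cancel_left _ (by norm_num)]
  push_cast
  ring

theorem sk_even_cast (c : ℕ) : (sk (2 * c) : ℝ) = tau (c + 1) + 5 / 8 * gap (tau c) := by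
  rw [sk_even]
  push_cast
  rw [gap_div_eight]
  ring

theorem sk_odd_cast (c : ℕ) : (sk (2 * c + 1) : ℝ) = tau (c + 2) + 1 / 8 * gap (tau (c + 1)) := by
  rw [sk_odd]
  push_cast
  rw [gap_div_eight]
  ring

theorem tau_le_cast {c d : ℕ} (h : c ≤ d) : (tau c : ℝ) ≤ tau d := by
  exact_mod_cast tau_strictMono.monotone h

theorem gap_le_cast {c d : ℕ} (h : c ≤ d) : (gap (tau c) : ℝ) ≤ gap (tau d) := by
  exact_mod_cast gap_tau_mono h

theorem gap_nonneg_cast (y : ℕ) : (0 : ℝ) ≤ gap y := by positivity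

theorem sub_aux {A B C D E : ℝ} (h1 : A ≤ C) (h2 : B ≤ C) (h3 : C + D ≤ E) :
    max A B + D ≤ E := by
  have := max_le h1 h2
  linarith

/-- general form: `b` is a possible border (a node) after `l'`; `b = l` if there is none -/
theorem meso_price_border {s s' : ℕ} (h : s' + 2 ≤ s) (b : ℝ)
    (hb1 : (sl s' : ℝ) + sg s' ≤ b) (hb2 : b ≤ sl s) :
    max (se s : ℝ) (sk (s' + 1)) - ((sl s : ℝ) + sk s) / 2 + ((sl s : ℝ) - b) / 2 +
      max 0 ((b - sl s') / 2 + ((sk (s' + 1) : ℝ) + sl s') / 2 - se s') +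
      ((sl s : ℝ) - sl s') / 16 ≤ (se s : ℝ) - se s' := by
  have hk : (sk (s' + 1) : ℝ) ≤ sk (s - 1) := by
    exact_mod_cast sk_strictMono.monotone (by omega : s' + 1 ≤ s - 1)
  rcases even_or_odd' s with ⟨c, rfl⟩ | ⟨c, rfl⟩ <;> rcases even_or_odd' s' with ⟨i, rfl⟩ | ⟨i, rfl⟩
  · -- even, even
    have hic : i + 1 ≤ c := by omega
    have e1 : (sk (2 * c - 1) : ℝ) = tau (c + 1) + 1 / 8 * gap (tau c) := by
      have := sk_odd_cast (c - 1)
      rw [show c - 1 + 2 = c + 1 by omega, show c - 1 + 1 = c by omega] at this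
      rwa [show 2 * (c - 1) + 1 = 2 * c - 1 by omega] at this
    rw [e1, sk_odd_cast] at hk
    rw [sl_even, sg_even] at hb1
    rw [sl_even] at hb2
    rw [sl_even, sl_even, se_even, se_even, sk_even_cast, sk_odd_cast]
    have t1 := tau_cast c
    have t2 := tau_cast i
    have t3 : (tau (i + 2) : ℝ) = tau (i + 1) + gap (tau (i + 1)) := tau_cast (i + 1)
    have g1 := gap_le_cast (show i ≤ i + 1 by omega)
    have g2 := gap_le_cast hic
    have g0 := gap_nonneg_cast (tau i)
    have hX : (gap (tau (i + 1)) : ℝ) ≤ tau c - tau (i + 1) ∨ i + 1 = c := by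
      rcases Nat.lt_or_ge (i + 1) c with hh | hh
      · left
        have := tau_le_cast (show i + 2 ≤ c by omega)
        linarith
      · right; omega
    have hmax : max (tau (c + 1) : ℝ) (tau (i + 2) + 1 / 8 * gap (tau (i + 1))) ≤
        tau (c + 1) + 1 / 8 * gap (tau c) := by
      refine max_le ?_ hk
      have := gap_nonneg_cast (tau c)
      linarith
    have hX2 := tau_le_cast hic
    rcases max_cases (0 : ℝ) ((b - tau i) / 2 +
      ((tau (i + 2) + 1 / 8 * gap (tau (i + 1)) : ℝ) + tau i) / 2 - tau (i + 1)) with h5 | h5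
    · rw [h5.1]
      linarith
    · rw [h5.1]
      rcases hX with hX | hX
      · linarith
      · subst hX
        linarith
  · -- even, odd
    have hic : i + 2 ≤ c := by omega
    have e1 : (sk (2 * c - 1) : ℝ) = tau (c + 1) + 1 / 8 * gap (tau c) := by
      have := sk_odd_cast (c - 1)
      rw [show c - 1 + 2 = c + 1 by omega, show c - 1 + 1 = c by omega] at this
      rwa [show 2 * (c - 1) + 1 = 2 * c - 1 by omega] at this
    have e2 : (sk (2 * i + 1 + 1) : ℝ) = tau (i + 2) + 5 / 8 * gap (tau (i + 1)) := by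
      rw [show 2 * i + 1 + 1 = 2 * (i + 1) by ring]
      exact sk_even_cast (i + 1)
    rw [e1, e2] at hk
    rw [sl_odd, sg_odd] at hb1
    rw [sl_even] at hb2
    rw [sl_even, sl_odd, se_even, se_odd, sk_even_cast, e2]
    have t1 := tau_cast c
    have t2 := tau_cast i
    have t3 : (tau (i + 2) : ℝ) = tau (i + 1) + gap (tau (i + 1)) := tau_cast (i + 1)
    have g1 := gap_le_cast (show i ≤ i + 1 by omega)
    have g2 := gap_le_cast (show i + 1 ≤ c by omega)
    have g0 := gap_nonneg_cast (tau i)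
    have hX := tau_le_cast hic
    have hmax : max (tau (c + 1) : ℝ) (tau (i + 2) + 5 / 8 * gap (tau (i + 1))) ≤ tau (c + 1) := by
      refine max_le le_rfl ?_
      have := gap_nonneg_cast (tau c)
      linarith
    rcases max_cases (0 : ℝ) ((b - tau i) / 2 +
      ((tau (i + 2) + 5 / 8 * gap (tau (i + 1)) : ℝ) + tau i) / 2 - tau (i + 2)) with h5 | h5
    · rw [h5.1]
      linarith
    · rw [h5.1]
      linarith
  · -- odd, even
    have hic : i + 1 ≤ c := by omega
    have e1 : (sk (2 * c + 1 - 1) : ℝ) = tau (c + 1) + 5 / 8 * gap (tau c) := by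
      rw [show 2 * c + 1 - 1 = 2 * c by omega]
      exact sk_even_cast c
    rw [e1, sk_odd_cast] at hk
    rw [sl_even, sg_even] at hb1
    rw [sl_odd] at hb2
    rw [sl_odd, sl_even, se_odd, se_even, sk_odd_cast, sk_odd_cast]
    have t1 := tau_cast c
    have t1' : (tau (c + 2) : ℝ) = tau (c + 1) + gap (tau (c + 1)) := tau_cast (c + 1)
    have t2 := tau_cast i
    have t3 : (tau (i + 2) : ℝ) = tau (i + 1) + gap (tau (i + 1)) := tau_cast (i + 1)
    have g1 := gap_le_cast (show i ≤ i + 1 by omega)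
    have g2 := gap_le_cast hic
    have g3 := gap_le_cast (show c ≤ c + 1 by omega)
    have g0 := gap_nonneg_cast (tau i)
    have hX2 := tau_le_cast hic
    have hX : (gap (tau (i + 1)) : ℝ) ≤ tau c - tau (i + 1) ∨ i + 1 = c := by
      rcases Nat.lt_or_ge (i + 1) c with hh | hh
      · left
        have := tau_le_cast (show i + 2 ≤ c by omega)
        linarith
      · right; omega
    have hmax : max (tau (c + 2) : ℝ) (tau (i + 2) + 1 / 8 * gap (tau (i + 1))) ≤ tau (c + 2) := by
      refine max_le le_rfl ?_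
      linarith
    rcases max_cases (0 : ℝ) ((b - tau i) / 2 +
      ((tau (i + 2) + 1 / 8 * gap (tau (i + 1)) : ℝ) + tau i) / 2 - tau (i + 1)) with h5 | h5
    · rw [h5.1]
      linarith
    · rw [h5.1]
      rcases hX with hX | hX
      · linarith
      · subst hX
        linarith
  · -- odd, odd
    have hic : i + 1 ≤ c := by omega
    have e1 : (sk (2 * c + 1 - 1) : ℝ) = tau (c + 1) + 5 / 8 * gap (tau c) := by
      rw [show 2 * c + 1 - 1 = 2 * c by omega]
      exact sk_even_cast c
    have e2 : (sk (2 * i + 1 + 1) : ℝ) = tau (i + 2) + 5 / 8 * gap (tau (i + 1)) := by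
      rw [show 2 * i + 1 + 1 = 2 * (i + 1) by ring]
      exact sk_even_cast (i + 1)
    rw [e1, e2] at hk
    rw [sl_odd, sg_odd] at hb1
    rw [sl_odd] at hb2
    rw [sl_odd, sl_odd, se_odd, se_odd, sk_odd_cast, e2]
    have t1 := tau_cast c
    have t1' : (tau (c + 2) : ℝ) = tau (c + 1) + gap (tau (c + 1)) := tau_cast (c + 1)
    have t2 := tau_cast i
    have t3 : (tau (i + 2) : ℝ) = tau (i + 1) + gap (tau (i + 1)) := tau_cast (i + 1)
    have g1 := gap_le_cast (show i ≤ i + 1 by omega)
    have g2 := gap_le_cast hic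
    have g3 := gap_le_cast (show c ≤ c + 1 by omega)
    have g0 := gap_nonneg_cast (tau i)
    have hX2 := tau_le_cast hic
    have hX : (gap (tau (i + 1)) : ℝ) ≤ tau c - tau (i + 1) ∨ i + 1 = c := by
      rcases Nat.lt_or_ge (i + 1) c with hh | hh
      · left
        have := tau_le_cast (show i + 2 ≤ c by omega)
        linarith
      · right; omega
    have hmax : max (tau (c + 2) : ℝ) (tau (i + 2) + 5 / 8 * gap (tau (i + 1))) ≤ tau (c + 2) := by
      refine max_le le_rfl ?_
      linarith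
    rcases max_cases (0 : ℝ) ((b - tau i) / 2 +
      ((tau (i + 2) + 5 / 8 * gap (tau (i + 1)) : ℝ) + tau i) / 2 - tau (i + 2)) with h5 | h5
    · rw [h5.1]
      rcases hX with hX | hX
      · linarith
      · subst hX
        linarith
    · rw [h5.1]
      rcases hX with hX | hX
      · linarith
      · subst hX
        linarith

/-- no border in between -/
theorem meso_price {s s' : ℕ} (h : s' + 2 ≤ s) :
    max (se s : ℝ) (sk (s' + 1)) - ((sl s : ℝ) + sk s) / 2 +
      max 0 (((sl s : ℝ) - sl s') / 2 + ((sk (s' + 1) : ℝ) + sl s') / 2 - se s') +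
      ((sl s : ℝ) - sl s') / 16 ≤ (se s : ℝ) - se s' := by
  have h1 : (sl s' : ℝ) + sg s' ≤ sl s := by exact_mod_cast sl_add_le h
  have h2 := meso_price_border h (sl s) h1 le_rfl
  linarith

end Pool.Agent.Helper27.T4
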