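import Mathlib

/-!
# Chains of new hits in a finite product space

`Ω c` (`c : C`) finite sets, all `ω : ∀ c, Ω c` equally likely. Hits `h : H` are events `E h` which
depend only on the coordinates in `S h`. `New l h` says that `h` is new with respect to the hits
`l` (latest first). If, whatever the coordinates used by `l` are, the expected number of new hits is
at most `ε`, then chains of `k` successive new hits have probability at most `ε ^ k`.
-/

namespace Pool.Agent.Helper27.T4

open Finset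

variable {C : Type*} [Fintype C] [DecidableEq C] {Ω : C → Type*} [∀ c, Fintype (Ω c)]
  {H : Type*} [Fintype H]

/-- the coordinates used by a list of hits -/
def SS (S : H → Finset C) : List H → Finset C
  | [] => ∅
  | h :: t => S h ∪ SS S t

/-- chains of successive new hits -/
def Chain (New : List H → H → Prop) : List H → Prop
  | [] => True
  | h :: t => New t h ∧ Chain New t

omit [Fintype C] [Fintype H] in
theorem mem_SS {S : H → Finset C} {l : List H} {h : H} (hl : h ∈ l) {c : C} (hc : c ∈ S h) :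
    c ∈ SS S l := by
  induction l with
  | nil => simp at hl
  | cons a t ih =>
    rw [SS, Finset.mem_union]
    rcases List.mem_cons.mp hl with rfl | h1
    · exact Or.inl hc
    · exact Or.inr (ih h1)

open Classical in
/-- one step -/
theorem step (S : H → Finset C) (E : H → (∀ c, Ω c) → Prop)
    (hE : ∀ h ω ω', (∀ c ∈ S h, ω c = ω' c) → E h ω → E h ω')
    (P : H → Prop) (ε : ℝ) (t : List H)
    (hb : ∀ ω0 : ∀ c, Ω c, (∀ h ∈ t, E h ω0) →
      ∑ h ∈ univ.filter P, ((univ.filter (fun ω : ∀ c, Ω c =>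
        (∀ c ∈ SS S t, ω c = ω0 c) ∧ E h ω)).card : ℝ) ≤
      ε * (univ.filter (fun ω : ∀ c, Ω c => ∀ c ∈ SS S t, ω c = ω0 c)).card) :
    ∑ h ∈ univ.filter P, ((univ.filter (fun ω : ∀ c, Ω c =>
      (∀ h' ∈ t, E h' ω) ∧ E h ω)).card : ℝ) ≤
      ε * (univ.filter (fun ω : ∀ c, Ω c => ∀ h' ∈ t, E h' ω)).card := by
  let res : (∀ c, Ω c) → (∀ c : {c // c ∈ SS S t}, Ω c.1) := fun ω c => ω c.1
  have hres : ∀ ω ω' : ∀ c, Ω c, res ω = res ω' ↔ ∀ c ∈ SS S t, ω c = ω' c := by
    intro ω ω'
    constructor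
    · intro h c hc
      exact congrFun h ⟨c, hc⟩
    · intro h
      funext c
      exact h c.1 c.2
  have hinv : ∀ ω ω' : ∀ c, Ω c, res ω = res ω' → (∀ h' ∈ t, E h' ω) → ∀ h' ∈ t, E h' ω' := by
    intro ω ω' h h1 h' hh'
    rw [hres] at h
    exact hE h' ω ω' (fun c hc => h c (mem_SS hh' hc)) (h1 h' hh')
  have key : ∀ A : (∀ c, Ω c) → Prop,
      ((univ.filter (fun ω : ∀ c, Ω c => (∀ h' ∈ t, E h' ω) ∧ A ω)).card : ℝ) =
      ∑ y ∈ (univ.filter (fun ω : ∀ c, Ω c => ∀ h' ∈ t, E h' ω)).image res,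
        ((univ.filter (fun ω : ∀ c, Ω c => res ω = y ∧ A ω)).card : ℝ) := by
    intro A
    rw [← Nat.cast_sum]
    congr 1
    rw [Finset.card_eq_sum_card_fiberwise (f := res)
      (t := (univ.filter (fun ω : ∀ c, Ω c => ∀ h' ∈ t, E h' ω)).image res)]
    · refine Finset.sum_congr rfl ?_
      intro y hy
      rw [Finset.mem_image] at hy
      obtain ⟨ω0, h0, rfl⟩ := hy
      simp only [Finset.mem_filter, Finset.mem_univ, true_and] at h0
      congr 1
      ext ω
      simp only [Finset.mem_filter, Finset.mem_univ, true_and]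
      constructor
      · rintro ⟨⟨_, h2⟩, h3⟩
        exact ⟨h3, h2⟩
      · rintro ⟨h2, h3⟩
        exact ⟨⟨hinv ω0 ω h2.symm h0, h3⟩, h2⟩
    · intro ω hω
      simp only [Finset.coe_filter, Finset.mem_univ, true_and, Set.mem_ofPred_eq] at hω
      rw [Finset.mem_coe, Finset.mem_image]
      exact ⟨ω, by simpa using hω.1, rfl⟩
  have key2 := key (fun _ => True)
  simp only [and_true] at key2
  rw [key2, Finset.mul_sum]
  simp_rw [key]
  rw [Finset.sum_comm]
  refine Finset.sum_le_sum ?_
  intro y hy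
  rw [Finset.mem_image] at hy
  obtain ⟨ω0, h0, rfl⟩ := hy
  simp only [Finset.mem_filter, Finset.mem_univ, true_and] at h0
  have h1 := hb ω0 h0
  simp_rw [hres]
  exact h1

/-- the chains of length `k` -/
noncomputable def chains (New : List H → H → Prop) : ℕ → Finset (List H)
  | 0 => {[]}
  | k + 1 => by
    classical
    exact (chains New k).biUnion (fun t => (univ.filter (New t)).image (fun h => h :: t))

theorem mem_chains (New : List H → H → Prop) (k : ℕ) (l : List H) :
    l ∈ chains New k ↔ l.length = k ∧ Chain New l := by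
  classical
  induction k generalizing l with
  | zero =>
    rw [chains, Finset.mem_singleton, List.length_eq_zero_iff]
    constructor
    · rintro rfl
      exact ⟨rfl, trivial⟩
    · exact fun h => h.1
  | succ k ih =>
    rw [chains, Finset.mem_biUnion]
    constructor
    · rintro ⟨t, ht, hl⟩
      rw [Finset.mem_image] at hl
      obtain ⟨h, hh, rfl⟩ := hl
      rw [ih] at ht
      simp only [Finset.mem_filter, Finset.mem_univ, true_and] at hh
      exact ⟨by rw [List.length_cons, ht.1], hh, ht.2⟩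
    · rintro ⟨h1, h2⟩
      rcases l with _ | ⟨h, t⟩
      · simp at h1
      · refine ⟨t, (ih t).mpr ⟨by simpa using h1, h2.2⟩, ?_⟩
        rw [Finset.mem_image]
        exact ⟨h, by simpa using h2.1, rfl⟩

open Classical in
theorem sum_chains (S : H → Finset C) (E : H → (∀ c, Ω c) → Prop)
    (hE : ∀ h ω ω', (∀ c ∈ S h, ω c = ω' c) → E h ω → E h ω')
    (New : List H → H → Prop) (ε : ℝ) (hε : 0 ≤ ε) (K : ℕ)
    (hb : ∀ (t : List H) (ω0 : ∀ c, Ω c), t.length < K → Chain New t → (∀ h ∈ t, E h ω0) →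
      ∑ h ∈ univ.filter (New t), ((univ.filter (fun ω : ∀ c, Ω c =>
        (∀ c ∈ SS S t, ω c = ω0 c) ∧ E h ω)).card : ℝ) ≤
      ε * (univ.filter (fun ω : ∀ c, Ω c => ∀ c ∈ SS S t, ω c = ω0 c)).card)
    (k : ℕ) (hk : k ≤ K) :
    ∑ l ∈ chains New k, ((univ.filter (fun ω : ∀ c, Ω c => ∀ h ∈ l, E h ω)).card : ℝ) ≤
      ε ^ k * Fintype.card (∀ c, Ω c) := by
  induction k with
  | zero =>
    rw [chains, Finset.sum_singleton]
    simp
  | succ k ih =>
    have ih' := ih (by omega)
    have h1 : ∑ l ∈ chains New (k + 1),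
        ((univ.filter (fun ω : ∀ c, Ω c => ∀ h ∈ l, E h ω)).card : ℝ) ≤
        ∑ t ∈ chains New k, ∑ h ∈ univ.filter (New t),
          ((univ.filter (fun ω : ∀ c, Ω c => (∀ h' ∈ t, E h' ω) ∧ E h ω)).card : ℝ) := by
      rw [chains, Finset.sum_biUnion]
      · refine Finset.sum_le_sum ?_
        intro t _
        rw [Finset.sum_image]
        · refine Finset.sum_le_sum ?_
          intro h _
          apply le_of_eq
          congr 2
          ext ω
          simp only [Finset.mem_filter, Finset.mem_univ, true_and, List.mem_cons, forall_eq_or_imp]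
          tauto
        · intro h _ h' _ hh
          exact (List.cons_eq_cons.mp hh).1
      · intro t _ t' _ htt'
        rw [Function.onFun, Finset.disjoint_left]
        intro l hl hl'
        rw [Finset.mem_image] at hl hl'
        obtain ⟨h, _, rfl⟩ := hl
        obtain ⟨h', _, hh⟩ := hl'
        exact htt' (List.cons_eq_cons.mp hh).2.symm
    refine le_trans h1 ?_
    have h2 : ∀ t ∈ chains New k, ∑ h ∈ univ.filter (New t),
          ((univ.filter (fun ω : ∀ c, Ω c => (∀ h' ∈ t, E h' ω) ∧ E h ω)).card : ℝ) ≤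
          ε * (univ.filter (fun ω : ∀ c, Ω c => ∀ h' ∈ t, E h' ω)).card := by
      intro t ht
      rw [mem_chains] at ht
      exact step S E hE (New t) ε t (fun ω0 h0 => hb t ω0 (by omega) ht.2 h0)
    refine le_trans (Finset.sum_le_sum h2) ?_
    rw [← Finset.mul_sum, pow_succ', mul_assoc]
    exact mul_le_mul_of_nonneg_left ih' hε

open Classical in
/-- the probability that there is a chain of `k` new hits is at most `ε ^ k` -/
theorem card_chain_le (S : H → Finset C) (E : H → (∀ c, Ω c) → Prop)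
    (hE : ∀ h ω ω', (∀ c ∈ S h, ω c = ω' c) → E h ω → E h ω')
    (New : List H → H → Prop) (ε : ℝ) (hε : 0 ≤ ε) (k : ℕ)
    (hb : ∀ (t : List H) (ω0 : ∀ c, Ω c), t.length < k → Chain New t → (∀ h ∈ t, E h ω0) →
      ∑ h ∈ univ.filter (New t), ((univ.filter (fun ω : ∀ c, Ω c =>
        (∀ c ∈ SS S t, ω c = ω0 c) ∧ E h ω)).card : ℝ) ≤
      ε * (univ.filter (fun ω : ∀ c, Ω c => ∀ c ∈ SS S t, ω c = ω0 c)).card) :
    ((univ.filter (fun ω : ∀ c, Ω c => ∃ l : List H, l.length = k ∧ Chain New l ∧
      ∀ h ∈ l, E h ω)).card : ℝ) ≤ ε ^ k * Fintype.card (∀ c, Ω c) := by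
  refine le_trans ?_ (sum_chains S E hE New ε hε k hb k le_rfl)
  have h1 : (univ.filter (fun ω : ∀ c, Ω c => ∃ l : List H, l.length = k ∧ Chain New l ∧
      ∀ h ∈ l, E h ω)) ⊆ (chains New k).biUnion
        (fun l => univ.filter (fun ω : ∀ c, Ω c => ∀ h ∈ l, E h ω)) := by
    intro ω hω
    simp only [Finset.mem_filter, Finset.mem_univ, true_and] at hω
    obtain ⟨l, hl1, hl2, hl3⟩ := hω
    rw [Finset.mem_biUnion]
    exact ⟨l, (mem_chains New k l).mpr ⟨hl1, hl2⟩, by simpa using hl3⟩
  calc ((univ.filter (fun ω : ∀ c, Ω c => ∃ l : List H, l.length = k ∧ Chain New l ∧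
      ∀ h ∈ l, E h ω)).card : ℝ) ≤ (((chains New k).biUnion
        (fun l => univ.filter (fun ω : ∀ c, Ω c => ∀ h ∈ l, E h ω))).card : ℝ) := by
        exact_mod_cast Finset.card_le_card h1
    _ ≤ ((∑ l ∈ chains New k, (univ.filter (fun ω : ∀ c, Ω c => ∀ h ∈ l, E h ω)).card : ℕ) : ℝ) := by
        exact_mod_cast Finset.card_biUnion_le
    _ = _ := by push_cast; rfl

end Pool.Agent.Helper27.T4
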