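import Pool.Agent.Helper27.T4.Sch

/-!
# Number of nodes and the sum over the far pairs
-/

namespace Pool.Agent.Helper27.T4

open Finset Pool.Agent.Helper5.ET

/-- the square root of the nodes grows at least by one per step -/
theorem le_sqrt_tau (c : ℕ) : c ≤ Nat.sqrt (tau c) := by
  induction c with
  | zero => exact Nat.zero_le _
  | succ c ih =>
    have h1 := (gap_size' (tau c) (tau_ge c)).1
    have h2 := log_ge (tau_ge_pow c)
    have h3 := sqrt_ge (tau_ge_pow c)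
    have h4 : Nat.sqrt (tau c) * Nat.sqrt (tau c) ≤ tau c := Nat.sqrt_le _
    have h5 : Nat.sqrt (tau c) + 1 ≤ Nat.sqrt (tau (c + 1)) := by
      rw [Nat.le_sqrt, tau_succ]
      nlinarith
    omega

theorem le_sqrt_tau_real (c : ℕ) : (c : ℝ) ≤ Real.sqrt (tau c) :=
  le_trans (by exact_mod_cast le_sqrt_tau c) Real.nat_sqrt_le_real_sqrt

theorem state_le_sqrt (s : ℕ) : ((s / 2 : ℕ) : ℝ) ≤ Real.sqrt (sl s) := le_sqrt_tau_real _

theorem state_le (s : ℕ) : (s : ℝ) ≤ 2 * Real.sqrt (sl s) + 1 := by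
  have h := state_le_sqrt s
  have h2 : (s : ℝ) ≤ 2 * ((s / 2 : ℕ) : ℝ) + 1 := by
    have : s ≤ 2 * (s / 2) + 1 := by omega
    exact_mod_cast this
  linarith

/-- difference of two nodes in terms of the gap of the lower one -/
theorem tau_sub_ge {i c : ℕ} (h : i ≤ c) : (c - i) * gap (tau i) + tau i ≤ tau c := by
  induction c, h using Nat.le_induction with
  | base => simp
  | succ c hic ih =>
    rw [tau_succ]
    have h1 := gap_tau_mono hic
    have h2 : c + 1 - i = (c - i) + 1 := by omega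
    rw [h2, add_mul, one_mul]
    omega

/-- gap in the upper half -/
theorem gap_half {c i : ℕ} (h : tau c ≤ 2 * tau i) :
    Real.sqrt (tau c) * Real.logb 2 (tau c) ≤ gap (tau i) := by
  have h0 := tau_ge_pow c
  have hi0 := tau_ge_pow i
  have h1 := (gap_size' (tau i) (tau_ge i)).1
  have hX : (0 : ℝ) < tau c := by
    have : 0 < tau c := lt_of_lt_of_le (by norm_num) h0
    exact_mod_cast this
  have hY : (0 : ℝ) < tau i := by
    have : 0 < tau i := lt_of_lt_of_le (by norm_num) hi0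
    exact_mod_cast this
  -- sqrt
  have hs : Real.sqrt (tau c) ≤ 3 / 2 * ((Nat.sqrt (tau i) : ℕ) : ℝ) := by
    have h3 : tau i < (Nat.sqrt (tau i) + 1) * (Nat.sqrt (tau i) + 1) := Nat.lt_succ_sqrt _
    have h4 := sqrt_ge hi0
    rw [Real.sqrt_le_left (by positivity)]
    have h5 : 4 * tau c ≤ 9 * (Nat.sqrt (tau i) * Nat.sqrt (tau i)) := by nlinarith
    have h6 : (4 : ℝ) * tau c ≤ 9 * (((Nat.sqrt (tau i) : ℕ) : ℝ) * ((Nat.sqrt (tau i) : ℕ) : ℝ)) := by
      exact_mod_cast h5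
    nlinarith
  -- logarithm
  have hl : Real.logb 2 (tau c) ≤ ((Nat.log 2 (tau i) : ℕ) : ℝ) + 2 := by
    have h5 : tau i < 2 ^ (Nat.log 2 (tau i) + 1) := Nat.lt_pow_succ_log_self (by norm_num) _
    have h6 : tau c ≤ 2 ^ (Nat.log 2 (tau i) + 2) := by
      calc tau c ≤ 2 * tau i := h
        _ ≤ 2 * 2 ^ (Nat.log 2 (tau i) + 1) := Nat.mul_le_mul_left _ h5.le
        _ = 2 ^ (Nat.log 2 (tau i) + 2) := by ring
    have h7 : (tau c : ℝ) ≤ 2 ^ (Nat.log 2 (tau i) + 2) := by exact_mod_cast h6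
    calc Real.logb 2 (tau c) ≤ Real.logb 2 (2 ^ (Nat.log 2 (tau i) + 2)) :=
          Real.logb_le_logb_of_le (by norm_num) hX h7
      _ = ((Nat.log 2 (tau i) : ℕ) : ℝ) + 2 := by
          rw [Real.logb_pow, Real.logb_self_eq_one (by norm_num)]
          push_cast
          ring
  have hL := log_ge hi0
  have hLr : (64 : ℝ) ≤ ((Nat.log 2 (tau i) : ℕ) : ℝ) := by exact_mod_cast hL
  have h1r : (4 : ℝ) * (((Nat.sqrt (tau i) : ℕ) : ℝ) * ((Nat.log 2 (tau i) : ℕ) : ℝ)) ≤
      gap (tau i) := by exact_mod_cast h1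
  have hlog0 : 0 ≤ Real.logb 2 (tau c) := by
    apply Real.logb_nonneg (by norm_num)
    have : 1 ≤ tau c := le_trans (by norm_num) h0
    exact_mod_cast this
  have hsq0 : (0 : ℝ) ≤ ((Nat.sqrt (tau i) : ℕ) : ℝ) := by positivity
  calc Real.sqrt (tau c) * Real.logb 2 (tau c)
      ≤ (3 / 2 * ((Nat.sqrt (tau i) : ℕ) : ℝ)) * (((Nat.log 2 (tau i) : ℕ) : ℝ) + 2) :=
        mul_le_mul hs hl hlog0 (by positivity)
    _ ≤ 4 * (((Nat.sqrt (tau i) : ℕ) : ℝ) * ((Nat.log 2 (tau i) : ℕ) : ℝ)) := by nlinarith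
    _ ≤ gap (tau i) := h1r

/-- one term of the sum over the far pairs -/
theorem term_le {c i : ℕ} (hic : i < c) : (tau c : ℝ) / ((tau c : ℝ) - tau i) ≤
    2 + Real.sqrt (tau c) / Real.logb 2 (tau c) * (1 / ((c - i : ℕ) : ℝ)) := by
  have h0 := tau_ge_pow c
  have hX : (0 : ℝ) < tau c := by
    have : 0 < tau c := lt_of_lt_of_le (by norm_num) h0
    exact_mod_cast this
  have hlog0 : 0 < Real.logb 2 (tau c) := by
    apply Real.logb_pos (by norm_num)
    have : 1 < tau c := lt_of_lt_of_le (by norm_num) h0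
    exact_mod_cast this
  have hs0 : 0 < Real.sqrt (tau c) := Real.sqrt_pos.mpr hX
  have hci : (0 : ℝ) < ((c - i : ℕ) : ℝ) := by
    have : 0 < c - i := by omega
    exact_mod_cast this
  have hlt : (tau i : ℝ) < tau c := by exact_mod_cast tau_strictMono hic
  have hsub : (0 : ℝ) < (tau c : ℝ) - tau i := by linarith
  rcases Nat.lt_or_ge (2 * tau i) (tau c) with h | h
  · have h1 : (2 : ℝ) * tau i ≤ tau c := by exact_mod_cast h.le
    have h2 : (tau c : ℝ) / ((tau c : ℝ) - tau i) ≤ 2 := by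
      rw [div_le_iff₀ hsub]
      linarith
    have h3 : 0 ≤ Real.sqrt (tau c) / Real.logb 2 (tau c) * (1 / ((c - i : ℕ) : ℝ)) := by
      positivity
    linarith
  · have h1 := gap_half h
    have h2 : ((c - i : ℕ) : ℝ) * gap (tau i) + tau i ≤ tau c := by
      exact_mod_cast tau_sub_ge hic.le
    have h3 : ((c - i : ℕ) : ℝ) * (Real.sqrt (tau c) * Real.logb 2 (tau c)) ≤
        (tau c : ℝ) - tau i := by
      have := mul_le_mul_of_nonneg_left h1 hci.le
      linarith
    have h4 : (tau c : ℝ) / ((tau c : ℝ) - tau i) ≤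
        (tau c : ℝ) / (((c - i : ℕ) : ℝ) * (Real.sqrt (tau c) * Real.logb 2 (tau c))) :=
      div_le_div_of_nonneg_left hX.le (by positivity) h3
    have h5 : (tau c : ℝ) / (((c - i : ℕ) : ℝ) * (Real.sqrt (tau c) * Real.logb 2 (tau c))) =
        Real.sqrt (tau c) / Real.logb 2 (tau c) * (1 / ((c - i : ℕ) : ℝ)) := by
      have hsq : Real.sqrt (tau c) * Real.sqrt (tau c) = tau c := Real.mul_self_sqrt hX.le
      rw [div_mul_div_comm, mul_one, div_eq_div_iff (by positivity) (by positivity)]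
      calc (tau c : ℝ) * (Real.logb 2 (tau c) * ((c - i : ℕ) : ℝ)) =
          (Real.sqrt (tau c) * Real.sqrt (tau c)) * (Real.logb 2 (tau c) * ((c - i : ℕ) : ℝ)) := by
            rw [hsq]
        _ = Real.sqrt (tau c) * (((c - i : ℕ) : ℝ) * (Real.sqrt (tau c) * Real.logb 2 (tau c))) := by
            ring
    rw [h5] at h4
    linarith

/-- the sum over all nodes below `tau c` -/
theorem sum_far (c : ℕ) : ∑ i ∈ Finset.range c, (tau c : ℝ) / ((tau c : ℝ) - tau i) ≤
    3 * Real.sqrt (tau c) := by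
  have h0 := tau_ge_pow c
  have hX1 : 1 < tau c := lt_of_lt_of_le (by norm_num) h0
  have hX : (0 : ℝ) < tau c := by
    have : 0 < tau c := by omega
    exact_mod_cast this
  have hlog0 : 0 < Real.logb 2 (tau c) := by
    apply Real.logb_pos (by norm_num)
    exact_mod_cast hX1
  have hs0 : 0 < Real.sqrt (tau c) := Real.sqrt_pos.mpr hX
  have h1 : ∑ i ∈ Finset.range c, (tau c : ℝ) / ((tau c : ℝ) - tau i) ≤
      ∑ i ∈ Finset.range c, (2 + Real.sqrt (tau c) / Real.logb 2 (tau c) *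
        (1 / ((c - i : ℕ) : ℝ))) :=
    Finset.sum_le_sum (fun i hi => term_le (Finset.mem_range.mp hi))
  have h2 : ∑ i ∈ Finset.range c, (1 / ((c - i : ℕ) : ℝ)) = (harmonic c : ℝ) := by
    rw [harmonic]
    push_cast
    rw [← Finset.sum_range_reflect]
    refine Finset.sum_congr rfl (fun i hi => ?_)
    rw [Finset.mem_range] at hi
    rw [one_div]
    congr 1
    have : c - (c - 1 - i) = i + 1 := by omega
    rw [this]
    push_cast
    ring
  rw [Finset.sum_add_distrib, ← Finset.mul_sum, h2] at h1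
  simp only [Finset.sum_const, Finset.card_range, nsmul_eq_mul] at h1
  have h3 := le_sqrt_tau_real c
  have h4 : (harmonic c : ℝ) ≤ Real.logb 2 (tau c) := by
    have h5 : (harmonic c : ℝ) ≤ 1 + Real.log c := harmonic_le_one_add_log c
    have hlogX : Real.log (tau c) ≤ Real.logb 2 (tau c) := by
      rw [Real.logb, le_div_iff₀ (Real.log_pos (by norm_num))]
      have hl : 0 ≤ Real.log (tau c) := Real.log_nonneg (by exact_mod_cast hX1.le)
      have h2' : Real.log 2 ≤ 1 := by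
        have := Real.log_two_lt_d9
        linarith
      nlinarith
    have hbig : (2 : ℝ) ≤ Real.log (tau c) := by
      have h6 : (2 : ℝ) ^ 64 ≤ tau c := by exact_mod_cast h0
      have h7 : Real.log ((2 : ℝ) ^ 64) ≤ Real.log (tau c) := Real.log_le_log (by positivity) h6
      rw [Real.log_pow] at h7
      have := Real.log_two_gt_d9
      push_cast at h7
      linarith
    have h8 : Real.log c ≤ 1 / 2 * Real.log (tau c) := by
      rcases Nat.eq_zero_or_pos c with hc | hc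
      · rw [hc]
        simp only [Nat.cast_zero, Real.log_zero]
        have : 0 ≤ Real.log (tau 0) := Real.log_nonneg (by
          have := tau_ge_pow 0
          have : 1 ≤ tau 0 := le_trans (by norm_num) this
          exact_mod_cast this)
        rw [hc] at *
        linarith
      · have hc' : (0 : ℝ) < c := by exact_mod_cast hc
        have h9 : Real.log c ≤ Real.log (Real.sqrt (tau c)) := Real.log_le_log hc' h3
        rw [Real.log_sqrt hX.le] at h9
        linarith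
    linarith
  have h5 : Real.sqrt (tau c) / Real.logb 2 (tau c) * (harmonic c : ℝ) ≤ Real.sqrt (tau c) := by
    rw [div_mul_eq_mul_div, div_le_iff₀ hlog0]
    exact mul_le_mul_of_nonneg_left h4 hs0.le
  linarith

/-- the near pairs -/
theorem gap_div_log (c : ℕ) : (gap (tau c) : ℝ) / Real.log (gap (tau c)) ≤
    24 * Real.sqrt (tau c) := by
  have h0 := tau_ge_pow c
  have hX1 : 1 < tau c := lt_of_lt_of_le (by norm_num) h0
  have hX : (0 : ℝ) < tau c := by
    have : 0 < tau c := by omega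
    exact_mod_cast this
  have h1 := (gap_size' (tau c) (tau_ge c)).2
  have h1' := (gap_size' (tau c) (tau_ge c)).1
  have hL := log_ge h0
  have hS := sqrt_ge h0
  have hs0 : 0 < Real.sqrt (tau c) := Real.sqrt_pos.mpr hX
  have hl2 : 0 < Real.log 2 := Real.log_pos (by norm_num)
  -- upper bound for the gap
  have hlog2 : ((Nat.log 2 (tau c) : ℕ) : ℝ) * Real.log 2 ≤ Real.log (tau c) := by
    rw [← Real.log_pow]
    apply Real.log_le_log (by positivity)
    exact_mod_cast Nat.pow_log_le_self 2 (by omega)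
  have hlogX : 0 < Real.log (tau c) := Real.log_pos (by exact_mod_cast hX1)
  have hup : (gap (tau c) : ℝ) ≤ 12 * (Real.sqrt (tau c) * Real.log (tau c)) := by
    have h2 : (gap (tau c) : ℝ) ≤ 8 * (((Nat.sqrt (tau c) : ℕ) : ℝ) *
        ((Nat.log 2 (tau c) : ℕ) : ℝ)) := by exact_mod_cast h1
    have h3 : ((Nat.sqrt (tau c) : ℕ) : ℝ) ≤ Real.sqrt (tau c) := Real.nat_sqrt_le_real_sqrt
    have h4 : ((Nat.log 2 (tau c) : ℕ) : ℝ) ≤ 3 / 2 * Real.log (tau c) := by
      have := Real.log_two_gt_d9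
      nlinarith
    calc (gap (tau c) : ℝ) ≤ 8 * (((Nat.sqrt (tau c) : ℕ) : ℝ) *
        ((Nat.log 2 (tau c) : ℕ) : ℝ)) := h2
      _ ≤ 8 * (Real.sqrt (tau c) * (3 / 2 * Real.log (tau c))) := by
          apply mul_le_mul_of_nonneg_left _ (by norm_num)
          exact mul_le_mul h3 h4 (by positivity) hs0.le
      _ = 12 * (Real.sqrt (tau c) * Real.log (tau c)) := by ring
  -- lower bound for its logarithm
  have hlow : Real.sqrt (tau c) ≤ gap (tau c) := by
    have h2 : tau c < (Nat.sqrt (tau c) + 1) * (Nat.sqrt (tau c) + 1) := Nat.lt_succ_sqrt _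
    have h3 : Real.sqrt (tau c) ≤ ((Nat.sqrt (tau c) : ℕ) : ℝ) + 1 := by
      rw [Real.sqrt_le_left (by positivity)]
      have : (tau c : ℝ) < (((Nat.sqrt (tau c) : ℕ) : ℝ) + 1) * (((Nat.sqrt (tau c) : ℕ) : ℝ) + 1) := by
        exact_mod_cast h2
      nlinarith
    have h4 : Nat.sqrt (tau c) + 1 ≤ gap (tau c) := by nlinarith
    have h5 : ((Nat.sqrt (tau c) : ℕ) : ℝ) + 1 ≤ gap (tau c) := by exact_mod_cast h4
    linarith
  have hlogg : 1 / 2 * Real.log (tau c) ≤ Real.log (gap (tau c)) := by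
    have := Real.log_le_log hs0 hlow
    rw [Real.log_sqrt hX.le] at this
    linarith
  have hlogg0 : 0 < Real.log (gap (tau c)) := by linarith
  rw [div_le_iff₀ hlogg0]
  nlinarith

/-- the square root of the position of a state -/
theorem sqrt_sl_ge (s : ℕ) : 2 ^ 30 + (s : ℝ) / 4 ≤ Real.sqrt (sl s) := by
  have h1 := state_le s
  have h2 : (2 : ℝ) ^ 32 ≤ Real.sqrt (sl s) := by
    apply Real.le_sqrt_of_sq_le
    have : (2 : ℝ) ^ 64 ≤ sl s := by exact_mod_cast sl_ge s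
    have h5 : ((2 : ℝ) ^ 32) ^ 2 = 2 ^ 64 := by norm_num
    rw [h5]
    exact this
  have h3 : (2 : ℝ) ^ 32 = 4 * 2 ^ 30 := by norm_num
  have h4 : (1 : ℝ) ≤ 2 ^ 30 := by norm_num
  rw [h3] at h2
  linarith

theorem exp_term (s : ℕ) : ((s : ℝ) + 1) * Real.exp (-(Real.sqrt (sl s))) ≤
    8 * Real.exp (-(2 ^ 30 : ℝ)) * (8 / 9) ^ s := by
  have h1 := sqrt_sl_ge s
  have h2 : Real.exp (-(Real.sqrt (sl s))) ≤ Real.exp (-(2 ^ 30 : ℝ)) * Real.exp (-((s : ℝ) / 4)) := by
    rw [← Real.exp_add]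
    apply Real.exp_le_exp.mpr
    linarith
  have h3 : (s : ℝ) + 1 ≤ 8 * Real.exp ((s : ℝ) / 8) := by
    have := Real.add_one_le_exp ((s : ℝ) / 8)
    linarith
  have h4 : Real.exp (-((s : ℝ) / 8)) ≤ (8 / 9) ^ s := by
    have h5 : Real.exp (-(1 / 8 : ℝ)) ≤ 8 / 9 := by
      rw [Real.exp_neg]
      have := Real.add_one_le_exp (1 / 8 : ℝ)
      calc (Real.exp (1 / 8))⁻¹ ≤ (1 / 8 + 1 : ℝ)⁻¹ := by
            apply inv_anti₀ (by norm_num) this
        _ = 8 / 9 := by norm_num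
    have h6 : Real.exp (-((s : ℝ) / 8)) = Real.exp (-(1 / 8 : ℝ)) ^ s := by
      rw [← Real.exp_nat_mul]
      congr 1
      ring
    rw [h6]
    exact pow_le_pow_left₀ (Real.exp_nonneg _) h5 s
  have hs : (0 : ℝ) ≤ (s : ℝ) + 1 := by positivity
  calc ((s : ℝ) + 1) * Real.exp (-(Real.sqrt (sl s)))
      ≤ (8 * Real.exp ((s : ℝ) / 8)) * (Real.exp (-(2 ^ 30 : ℝ)) * Real.exp (-((s : ℝ) / 4))) :=
        mul_le_mul h3 h2 (Real.exp_nonneg _) (by positivity)
    _ = 8 * Real.exp (-(2 ^ 30 : ℝ)) * (Real.exp ((s : ℝ) / 8) * Real.exp (-((s : ℝ) / 4))) := by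
        ring
    _ = 8 * Real.exp (-(2 ^ 30 : ℝ)) * Real.exp (-((s : ℝ) / 8)) := by
        rw [← Real.exp_add]
        congr 2
        ring
    _ ≤ 8 * Real.exp (-(2 ^ 30 : ℝ)) * (8 / 9) ^ s :=
        mul_le_mul_of_nonneg_left h4 (by positivity)

/-- the failure probabilities of all pairs of states have a tiny sum -/
theorem exp_sum (S : ℕ) : ∑ s ∈ Finset.range S, ((s : ℝ) + 1) *
    Real.exp (-(Real.sqrt (sl s))) ≤ 1 / 1000 := by
  have h1 : ∑ s ∈ Finset.range S, ((s : ℝ) + 1) * Real.exp (-(Real.sqrt (sl s))) ≤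
      ∑ s ∈ Finset.range S, 8 * Real.exp (-(2 ^ 30 : ℝ)) * (8 / 9) ^ s :=
    Finset.sum_le_sum (fun s _ => exp_term s)
  rw [← Finset.mul_sum] at h1
  have h2 : ∑ s ∈ Finset.range S, (8 / 9 : ℝ) ^ s ≤ 9 := by
    have h3 := geom_sum_eq (show (8 / 9 : ℝ) ≠ 1 by norm_num) S
    rw [h3]
    have : (0 : ℝ) ≤ (8 / 9) ^ S := by positivity
    rw [div_le_iff_of_neg (by norm_num)]
    linarith
  have h3 : Real.exp (-(2 ^ 30 : ℝ)) ≤ 1 / 2 ^ 30 := by
    rw [Real.exp_neg]
    have h4 := Real.add_one_le_exp (2 ^ 30 : ℝ)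
    have h5 : (2 : ℝ) ^ 30 ≤ Real.exp (2 ^ 30 : ℝ) := by linarith
    rw [one_div]
    exact inv_anti₀ (by positivity) h5
  have h6 : 0 ≤ Real.exp (-(2 ^ 30 : ℝ)) := Real.exp_nonneg _
  calc ∑ s ∈ Finset.range S, ((s : ℝ) + 1) * Real.exp (-(Real.sqrt (sl s)))
      ≤ 8 * Real.exp (-(2 ^ 30 : ℝ)) * ∑ s ∈ Finset.range S, (8 / 9 : ℝ) ^ s := h1
    _ ≤ 8 * Real.exp (-(2 ^ 30 : ℝ)) * 9 := mul_le_mul_of_nonneg_left h2 (by positivity)
    _ ≤ 8 * (1 / 2 ^ 30) * 9 := by
        apply mul_le_mul_of_nonneg_right _ (by norm_num)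
        exact mul_le_mul_of_nonneg_left h3 (by norm_num)
    _ ≤ 1 / 1000 := by norm_num

end Pool.Agent.Helper27.T4
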